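import Mathlib

/-!
Definitions for MP_315d97_co (off-diagonally symmetric domino tilings of the Aztec diamond).
-/

set_option autoImplicit false

namespace Pool.Agent.R161.Az

open Finset Matrix Filter Topology

/-! ### Tilings -/

/-- A unit lattice square is named by its lower left corner `s`; it lies in
`{(x, y) : |x| + |y| ≤ m + 1}`. -/
def InAD (m : ℕ) (s : ℤ × ℤ) : Prop :=
  ∀ x y : ℝ, (s.1 : ℝ) ≤ x → x ≤ s.1 + 1 → (s.2 : ℝ) ≤ y → y ≤ s.2 + 1 → |x| + |y| ≤ m + 1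

/-- Two unit squares that share an edge. -/
def Adj (s t : ℤ × ℤ) : Prop := |s.1 - t.1| + |s.2 - t.2| = 1

/-- A domino tiling of the Aztec diamond `AD m`, given by the function that sends every unit square
of `AD m` to the other square of its domino (and fixes the squares outside `AD m`). -/
def IsTiling (m : ℕ) (f : ℤ × ℤ → ℤ × ℤ) : Prop :=
  (∀ s, InAD m s → InAD m (f s) ∧ Adj s (f s) ∧ f (f s) = s) ∧ ∀ s, ¬ InAD m s → f s = s

/-- Reflection in the vertical diagonal `x = 0` (on lower left corners of unit squares). -/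
def rho (s : ℤ × ℤ) : ℤ × ℤ := (-1 - s.1, s.2)

/-- The tiling is invariant under the reflection in the vertical diagonal. -/
def IsSym (f : ℤ × ℤ → ℤ × ℤ) : Prop := ∀ s, f (rho s) = rho (f s)

/-- The `k`-th cell (`k < m`) on the vertical diagonal of `AD m`: the `2 × 2` block whose lower left
square is `(-1, 2k - m)`. -/
def cell (m k : ℕ) : Finset (ℤ × ℤ) :=
  {(-1, 2 * (k : ℤ) - m), (0, 2 * (k : ℤ) - m), (-1, 2 * (k : ℤ) - m + 1),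
    (0, 2 * (k : ℤ) - m + 1)}

/-- The value of the `k`-th diagonal cell: number of whole dominoes in it minus one. -/
def cellVal (m : ℕ) (f : ℤ × ℤ → ℤ × ℤ) (k : ℕ) : ℤ :=
  ((((cell m k).filter (fun s => f s ∈ cell m k)).card / 2 : ℕ) : ℤ) - 1

/-- `O(2n, [2n])`: off-diagonally symmetric tilings of `AD (2n)`. -/
def TO (n : ℕ) : Set (ℤ × ℤ → ℤ × ℤ) :=
  {f | IsTiling (2 * n) f ∧ IsSym f ∧ ∀ k < 2 * n, cellVal (2 * n) f k = 0}

/-- nearly off-diagonally symmetric tilings of `AD (2n + 1)`: exactly one diagonal cell has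
nonzero value. -/
def TD (n : ℕ) : Set (ℤ × ℤ → ℤ × ℤ) :=
  {f | IsTiling (2 * n + 1) f ∧ IsSym f ∧ ∃! k, k < 2 * n + 1 ∧ cellVal (2 * n + 1) f k ≠ 0}

/-! ### Perfect matchings of finite sets -/

/-- perfect matchings of the finite set `U` for the relation `R`, as involutions -/
def Mat {V : Type*} (R : V → V → Prop) (U : Finset V) : Set (V → V) :=
  {f | (∀ x ∈ U, f x ∈ U ∧ R x (f x) ∧ f (f x) = x) ∧ ∀ x ∉ U, f x = x}

noncomputable def mc {V : Type*} (R : V → V → Prop) (U : Finset V) : ℕ := (Mat R U).ncard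

/-! ### The right half of the Aztec diamond.  Column `c < m`, row `r < 2 (m - c)` counted from the
bottom of the column: the unit square with lower left corner `(c, r - (m - c))`. -/

/-- adjacency in these coordinates -/
def HAdj (a b : ℕ × ℕ) : Prop :=
  (a.1 = b.1 ∧ (a.2 + 1 = b.2 ∨ b.2 + 1 = a.2)) ∨
  (a.1 + 1 = b.1 ∧ b.2 + 1 = a.2) ∨ (b.1 + 1 = a.1 ∧ a.2 + 1 = b.2)

/-- the half diamond with dents in column `0`: an even row `r` of column `0` is removed iff `r ∈ T`,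
an odd row `r` of column `0` is removed iff `r ∉ T`. -/
def Half (m : ℕ) (T : Finset ℕ) : Finset (ℕ × ℕ) :=
  (range m ×ˢ range (2 * m)).filter
    (fun a => a.2 < 2 * (m - a.1) ∧ (a.1 = 0 → ((a.2 % 2 = 0 ∧ a.2 ∉ T) ∨ (a.2 % 2 = 1 ∧ a.2 ∈ T))))

/-- the rows of the path matrix -/
def rr : ℕ → ℕ → ℤ
  | 0, t => if t ≤ 1 then 1 else 0
  | i + 1, t => (if t = 0 then 0 else rr i (t - 1)) +
      (if t % 2 = 1 then rr i t + (if t = 1 then 0 else rr i (t - 2)) else 0)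

/-! ### Pair matrices -/

section
variable {R : Type*} [CommRing R]

def ix {n : ℕ} (p : Fin n × Fin 2) : ℕ := 2 * (p.1 : ℕ) + p.2

def ix' {n : ℕ} : (Fin n × Fin 2) ⊕ Unit → ℕ
  | Sum.inl p => ix p
  | Sum.inr _ => 2 * n

/-- columns `2 k_j, 2 k_j + 1` -/
def PM (n : ℕ) (u : ℕ → ℕ → R) (k : Fin n → ℕ) : Matrix (Fin n × Fin 2) (Fin n × Fin 2) R :=
  Matrix.of fun p q => u (ix p) (2 * k q.1 + q.2)

/-- columns `2 k_j, 2 k_j + 1` and `t` -/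
def PMD (n : ℕ) (u : ℕ → ℕ → R) (k : Fin n → ℕ) (t : ℕ) :
    Matrix ((Fin n × Fin 2) ⊕ Unit) ((Fin n × Fin 2) ⊕ Unit) R :=
  Matrix.of fun p q => u (ix' p) (match q with
    | Sum.inl q => 2 * k q.1 + q.2
    | Sum.inr _ => t)

/-- the skew kernel -/
def Kf (u : ℕ → ℕ → R) (L i j : ℕ) : R :=
  ∑ k ∈ range L, (u i (2 * k) * u j (2 * k + 1) - u i (2 * k + 1) * u j (2 * k))

/-- `2^n n!` times the Pfaffian -/
noncomputable def PF (n : ℕ) (A : ℕ → ℕ → R) : R :=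
  ∑ σ : Equiv.Perm (Fin n × Fin 2), ((Equiv.Perm.sign σ : ℤ) : R) *
    ∏ j : Fin n, A (ix (σ (j, 0))) (ix (σ (j, 1)))

noncomputable def PFD (n : ℕ) (A : ℕ → ℕ → R) (f : ℕ → R) : R :=
  ∑ σ : Equiv.Perm ((Fin n × Fin 2) ⊕ Unit), ((Equiv.Perm.sign σ : ℤ) : R) *
    ((∏ j : Fin n, A (ix' (σ (Sum.inl (j, 0)))) (ix' (σ (Sum.inl (j, 1))))) *
      f (ix' (σ (Sum.inr ()))))

end

/-! ### The second frame -/

noncomputable def dl : ℝ := √2 - 1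
noncomputable def kp : ℝ := 2 * √2

noncomputable def VV (i m : ℕ) : ℝ :=
  dl ^ m * ∑ l ∈ range (i + 1), (i.choose l : ℝ) * (m.choose l) * kp ^ l * dl ^ (i - l)

/-- super factorial `0! 1! ⋯ (N-1)!` -/
noncomputable def sf (N : ℕ) : ℝ := ∏ i ∈ range N, (i.factorial : ℝ)

/-- Vandermonde product of the `2 k_j, 2 k_j + 1` -/
noncomputable def Vp (n : ℕ) (k : Fin n → ℕ) : ℝ :=
  ∏ i : Fin n, ∏ j ∈ Ioi i, ((2 * ((k j : ℝ) - k i)) ^ 2 * ((2 * ((k j : ℝ) - k i)) ^ 2 - 1))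

/-- squared Vandermonde product of the `k_j` -/
noncomputable def Vd (n : ℕ) (k : Fin n → ℕ) : ℝ :=
  ∏ i : Fin n, ∏ j ∈ Ioi i, ((k j : ℝ) - k i) ^ 2

/-- limit of the Meixner sum -/
noncomputable def ZM (n : ℕ) (q : ℝ) : ℝ :=
  n.factorial * (sf n) ^ 2 * q ^ (n * (n - 1) / 2) / (1 - q) ^ (n ^ 2)

/-! ### Statements -/

/-- recursion for the number of perfect matchings -/
def S_mc : Prop := ∀ (V : Type) [DecidableEq V] (R : V → V → Prop) (_ : ∀ x y, R x y → R y x)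
  (_ : ∀ x, ¬ R x x), mc R (∅ : Finset V) = 1 ∧ ∀ (U : Finset V), ∀ v ∈ U,
    (Mat R U).Finite ∧
    mc R U = ∑ w ∈ U, open Classical in (if R v w then mc R ((U.erase v).erase w) else 0)

/-- half tilings are counted by determinants -/
def S_half : Prop := ∀ (m : ℕ) (t : Fin m → ℕ), StrictMono t → (∀ j, t j < 2 * m) →
  (mc HAdj (Half m (univ.image t)) : ℤ) = (Matrix.of fun i j : Fin m => rr i (t j)).det

/-- tilings of AD(2n) to half tilings -/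
def S_TO1 : Prop := ∀ n : ℕ, (TO n).Finite ∧ (TO n).ncard = ∑ k : Fin n ↪o Fin (2 * n),
  mc HAdj (Half (2 * n) (univ.image (fun p : Fin n × Fin 2 => 2 * ((k p.1 : Fin (2 * n)) : ℕ) + p.2)))

/-- tilings of AD(2n+1) to half tilings -/
def S_TD1 : Prop := ∀ n : ℕ, (TD n).Finite ∧ (TD n).ncard = ∑ k : Fin n ↪o Fin (2 * n + 1),
  ∑ t ∈ (range (2 * (2 * n + 1))).filter (fun t => ∀ j, (k j : ℕ) ≠ t / 2),
  mc HAdj (Half (2 * n + 1)
    (insert t (univ.image (fun p : Fin n × Fin 2 => 2 * ((k p.1 : Fin (2 * n + 1)) : ℕ) + p.2))))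

/-- counting tilings by pair determinants -/
def S_TO : Prop := ∀ n : ℕ, ((TO n).ncard : ℤ) = ∑ k : Fin n ↪o Fin (2 * n),
  (PM n rr (fun j => ((k j : Fin (2 * n)) : ℕ))).det

def S_TD : Prop := ∀ n : ℕ, ((TD n).ncard : ℤ) = ∑ k : Fin n ↪o Fin (2 * n + 1),
  ∑ t ∈ range (2 * (2 * n + 1)), (PMD n rr (fun j => ((k j : Fin (2 * n + 1)) : ℕ)) t).det

/-- Pfaffian identities (over the reals) -/
def S_PF : Prop := ∀ (n L : ℕ) (u : ℕ → ℕ → ℝ),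
  2 ^ n * ∑ k : Fin n → Fin L, (PM n u (fun j => (k j : ℕ))).det = PF n (Kf u L)

def S_PFD : Prop := ∀ (n L L' : ℕ) (u : ℕ → ℕ → ℝ) (g : ℕ → ℝ),
  2 ^ n * ∑ k : Fin n → Fin L, ∑ t ∈ range L', g t * (PMD n u (fun j => (k j : ℕ)) t).det =
    PFD n (Kf u L) (fun i => ∑ t ∈ range L', g t * u i t)

/-- tuples versus sets -/
def S_sym : Prop := ∀ (n L : ℕ) (u : ℕ → ℕ → ℝ),
  ∑ k : Fin n → Fin L, (PM n u (fun j => (k j : ℕ))).det =
    n.factorial * ∑ k : Fin n ↪o Fin L, (PM n u (fun j => ((k j : Fin L) : ℕ))).det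

def S_symD : Prop := ∀ (n L t : ℕ) (u : ℕ → ℕ → ℝ),
  ∑ k : Fin n → Fin L, (PMD n u (fun j => (k j : ℕ)) t).det =
    n.factorial * ∑ k : Fin n ↪o Fin L, (PMD n u (fun j => ((k j : Fin L) : ℕ)) t).det

/-- the two frames have the same kernel -/
def S_K : Prop := ∀ i j : ℕ, Tendsto (fun L => 4 * dl * Kf VV L i j) atTop
  (𝓝 ((Kf rr (i + j + 2) i j : ℤ) : ℝ))

def S_F : Prop := ∀ i : ℕ, Tendsto
  (fun L => √2 * ∑ t ∈ range (2 * L), (if t % 2 = 0 then 1 else dl) * VV i t) atTop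
  (𝓝 ((∑ t ∈ range (2 * i + 2), rr i t : ℤ) : ℝ))

/-- closed form of the determinants in the second frame -/
def S_V : Prop := ∀ (n : ℕ) (k : Fin n → ℕ),
  (PM n VV k).det = kp ^ (n * (2 * n - 1)) * dl ^ (∑ j, (4 * k j + 1)) * Vp n k / sf (2 * n)

def S_VD : Prop := ∀ (n : ℕ) (k : Fin n → ℕ) (t : ℕ),
  (PMD n VV k t).det = kp ^ (n * (2 * n + 1)) * dl ^ ((∑ j, (4 * k j + 1)) + t) *
    (Vp n k * ∏ j, (((t : ℝ) - 2 * k j) * ((t : ℝ) - 2 * k j - 1))) / sf (2 * n + 1)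

/-- Meixner sum -/
def S_M : Prop := ∀ (n : ℕ) (q : ℝ), 0 < q → q < 1 →
  Tendsto (fun L => ∑ k : Fin n → Fin L, Vd n (fun j => (k j : ℕ)) * q ^ (∑ j, (k j : ℕ))) atTop
    (𝓝 (ZM n q))

/-- comparison of the `β = 4` and the `β = 2` products -/
def S_cmp : Prop := ∀ (n : ℕ) (k : Fin n → ℕ),
  Vp n k ≤ 16 ^ (n * (n - 1) / 2) * Vd n k ^ 2 ∧
  16 ^ (n * (n - 1) / 2) * Vd n k ^ 2 ≤ 6 ^ n * Vp n k ∧ 0 ≤ Vp n k

/-- final bounds -/
def S_boundO : Prop := ∃ C : ℝ, 1 ≤ C ∧ ∀ n : ℕ, 1 ≤ n →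
  (2 : ℝ) ^ (n ^ 2) / (C * n) ^ (C * n) ≤ ((TO n).ncard : ℝ) ∧
  ((TO n).ncard : ℝ) ≤ (2 : ℝ) ^ (n ^ 2) * (C * n) ^ (C * n)

def S_boundD : Prop := ∃ C : ℝ, 1 ≤ C ∧ ∀ n : ℕ, 1 ≤ n →
  (2 : ℝ) ^ (n ^ 2) / (C * n) ^ (C * n) ≤ ((TD n).ncard : ℝ) ∧
  ((TD n).ncard : ℝ) ≤ (2 : ℝ) ^ (n ^ 2) * (C * n) ^ (C * n)

/-- from the bounds to the limits -/
def S_lim : Prop := ∀ (a : ℕ → ℝ), (∃ C : ℝ, 1 ≤ C ∧ ∀ n : ℕ, 1 ≤ n →
  (2 : ℝ) ^ (n ^ 2) / (C * n) ^ (C * n) ≤ a n ∧ a n ≤ (2 : ℝ) ^ (n ^ 2) * (C * n) ^ (C * n)) →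
  Tendsto (fun n : ℕ => a n ^ ((2 : ℝ) / (2 * n) ^ 2)) atTop (𝓝 √2) ∧
  Tendsto (fun n : ℕ => a n ^ ((2 : ℝ) / (2 * n + 1) ^ 2)) atTop (𝓝 √2)

end Pool.Agent.R161.Az
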