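import Mathlib
import Pool.Agent.R161.Az.Defs

set_option autoImplicit false

namespace Pool.Agent.R161.AzB

open Pool.Agent.R161.Az

open Finset Matrix Filter Topology

lemma sqrt2_sq : √2 * √2 = (2 : ℝ) := Real.mul_self_sqrt (by norm_num)

lemma sqrt2_gt : (1.414 : ℝ) < √2 := by
  rw [Real.lt_sqrt (by norm_num)]; norm_num

lemma sqrt2_lt : √2 < (1.415 : ℝ) := by
  rw [Real.sqrt_lt' (by norm_num)]; norm_num

lemma dl_gt : (0.414 : ℝ) < dl := by unfold dl; linarith [sqrt2_gt]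
lemma dl_lt : dl < (0.415 : ℝ) := by unfold dl; linarith [sqrt2_lt]
lemma dl_pos : 0 < dl := by linarith [dl_gt]
lemma dl_sq : dl ^ 2 = 1 - 2 * dl := by
  unfold dl; nlinarith [sqrt2_sq]
lemma kp_pos : 0 < kp := by unfold kp; linarith [sqrt2_gt]
lemma kp_sq : kp ^ 2 = 8 := by unfold kp; nlinarith [sqrt2_sq]
lemma kp_ge : 1 ≤ kp := by unfold kp; linarith [sqrt2_gt]
lemma kp_le : kp ≤ 3 := by unfold kp; linarith [sqrt2_lt]

/-- the parameter `q` -/
noncomputable def qq : ℝ := dl ^ 2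
lemma qq_pos : 0 < qq := by unfold qq; exact pow_pos dl_pos 2
lemma qq_lt : qq < 0.2 := by unfold qq; rw [dl_sq]; linarith [dl_gt]
lemma one_sub_qq : 1 - qq = 2 * dl := by unfold qq; rw [dl_sq]; ring

lemma sf_pos (N : ℕ) : 0 < sf N := by
  unfold sf
  exact Finset.prod_pos fun i _ => by positivity

lemma sf_succ (N : ℕ) : sf (N + 1) = sf N * N.factorial := by
  unfold sf; rw [Finset.prod_range_succ]

lemma sf_zero : sf 0 = 1 := by simp [sf]

/-- `x_n = 4^(n(n-1)) sf(n)^4 / sf(2n)` -/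
noncomputable def xx (n : ℕ) : ℝ := 4 ^ (n * (n - 1)) * sf n ^ 4 / sf (2 * n)

lemma xx_pos (n : ℕ) : 0 < xx n := by
  unfold xx
  have := sf_pos n
  have := sf_pos (2 * n)
  positivity

lemma xx_succ (n : ℕ) : xx (n + 1) = xx n *
    ((4 ^ n / (n.centralBinom : ℝ)) ^ 2 / (2 * n + 1)) := by
  unfold xx
  have e1 : (n + 1) * (n + 1 - 1) = n * (n - 1) + 2 * n := by
    rcases n with _ | n
    · simp
    · simp only [Nat.add_sub_cancel]; ring
  have e2 : 2 * (n + 1) = 2 * n + 1 + 1 := by ring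
  rw [e1, e2, sf_succ, sf_succ, sf_succ, Nat.factorial_succ]
  have h0 := Nat.centralBinom_eq_two_mul_choose n
  have h1 : (n.centralBinom : ℝ) * (n.factorial : ℝ) * (n.factorial : ℝ) = ((2 * n).factorial : ℝ) := by
    rw [h0]
    have := Nat.choose_mul_factorial_mul_factorial (n := 2 * n) (k := n) (by omega)
    rw [show 2 * n - n = n by omega] at this
    exact_mod_cast this
  have hc : (0 : ℝ) < n.centralBinom := by exact_mod_cast Nat.centralBinom_pos n
  have hf : (0 : ℝ) < n.factorial := by positivity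
  have hs := sf_pos (2 * n)
  push_cast
  rw [← h1]
  field_simp
  rw [pow_add, pow_mul, ← pow_mul 4 n 2, mul_comm n 2, pow_mul]
  ring

lemma xx_bounds (n : ℕ) : xx n ≤ (2 * n + 1) ^ n ∧ 1 ≤ xx n * (2 * n + 1) ^ n := by
  induction n with
  | zero => simp [xx, sf_zero]
  | succ n ih =>
    rw [xx_succ]
    have hc : (0 : ℝ) < n.centralBinom := by exact_mod_cast Nat.centralBinom_pos n
    have hx := xx_pos n
    have u1 : (n.centralBinom : ℝ) ≤ 4 ^ n := by
      have h1 : n.centralBinom ≤ 2 ^ (2 * n) := by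
        rw [Nat.centralBinom_eq_two_mul_choose]
        exact Nat.choose_le_two_pow _ _
      have h2 : (2 : ℕ) ^ (2 * n) = 4 ^ n := by rw [pow_mul]; norm_num
      rw [h2] at h1
      exact_mod_cast h1
    have u2 : (4 : ℝ) ^ n ≤ (2 * n + 1) * n.centralBinom := by
      rcases Nat.eq_zero_or_pos n with h | h
      · subst h; simp
      · have h1 := Nat.four_pow_le_two_mul_self_mul_centralBinom n h
        have h2 : ((4 ^ n : ℕ) : ℝ) ≤ ((2 * n * n.centralBinom : ℕ) : ℝ) := by exact_mod_cast h1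
        push_cast at h2
        nlinarith
    set r : ℝ := 4 ^ n / (n.centralBinom : ℝ) with hr
    have r1 : 1 ≤ r := by rw [hr, le_div_iff₀ hc]; linarith
    have r2 : r ≤ 2 * n + 1 := by rw [hr, div_le_iff₀ hc]; exact u2
    have hn : (0 : ℝ) ≤ n := Nat.cast_nonneg n
    have b1 : r ^ 2 / (2 * n + 1) ≤ 2 * n + 1 := by
      rw [div_le_iff₀ (by linarith)]
      nlinarith
    have b2 : 1 / (2 * n + 1) ≤ r ^ 2 / (2 * (n : ℝ) + 1) := by
      apply div_le_div_of_nonneg_right _ (by linarith)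
      nlinarith
    have b3 : 0 < r ^ 2 / (2 * (n : ℝ) + 1) := lt_of_lt_of_le (by positivity) b2
    have hmono : (2 * (n : ℝ) + 1) ^ n ≤ (2 * ((n : ℝ) + 1) + 1) ^ n :=
      pow_le_pow_left₀ (by linarith) (by linarith) n
    have hP : (0 : ℝ) < (2 * (n : ℝ) + 1) ^ n := by positivity
    push_cast
    constructor
    · calc xx n * (r ^ 2 / (2 * n + 1)) ≤ (2 * n + 1) ^ n * (2 * n + 1) := by
            apply mul_le_mul ih.1 b1 b3.le hP.le
        _ ≤ (2 * ((n : ℝ) + 1) + 1) ^ n * (2 * ((n : ℝ) + 1) + 1) := by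
            apply mul_le_mul hmono (by linarith) (by linarith) (by positivity)
        _ = _ := by rw [pow_succ (2 * ((n : ℝ) + 1) + 1) n]
    · calc (1 : ℝ) ≤ xx n * (2 * n + 1) ^ n * ((1 / (2 * n + 1)) * (2 * n + 1)) := by
            rw [one_div_mul_cancel (by linarith), mul_one]; exact ih.2
        _ = (xx n * (1 / (2 * n + 1))) * ((2 * n + 1) ^ n * (2 * n + 1)) := by ring
        _ ≤ (xx n * (r ^ 2 / (2 * n + 1))) * ((2 * ((n : ℝ) + 1) + 1) ^ n * (2 * ((n : ℝ) + 1) + 1)) := by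
            apply mul_le_mul
            · exact mul_le_mul_of_nonneg_left b2 hx.le
            · exact mul_le_mul hmono (by linarith) (by linarith) (by positivity)
            · positivity
            · positivity
        _ = _ := by rw [pow_succ (2 * ((n : ℝ) + 1) + 1) n]

/-- `W` -/
noncomputable def WW (n : ℕ) : ℝ :=
  (4 * dl) ^ n * (kp ^ (n * (2 * n - 1)) * dl ^ n * 16 ^ (n * (n - 1) / 2) / sf (2 * n))

lemma WW_pos (n : ℕ) : 0 < WW n := by
  unfold WW
  have := dl_pos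
  have := kp_pos
  have := sf_pos (2 * n)
  positivity

lemma half_even (n : ℕ) : n * (n - 1) / 2 * 2 = n * (n - 1) := by
  apply Nat.div_mul_cancel
  rcases n with _ | n
  · simp
  · simp only [Nat.add_sub_cancel]
    rw [mul_comm]
    exact (Nat.even_mul_succ_self n).two_dvd

lemma WZ (n : ℕ) : WW n * ZM n qq ^ 2 * kp ^ n =
    (n.factorial : ℝ) ^ 2 * 2 ^ (n ^ 2) * 4 ^ n * xx n := by
  have hd := dl_pos
  have hk := kp_pos
  have hs := sf_pos (2 * n)
  have hs' := sf_pos n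
  have he := half_even n
  set e := n * (n - 1) / 2 with hedef
  have f1 : (16 : ℝ) ^ e = 4 ^ (n * (n - 1)) := by
    rw [← he, mul_comm e 2, pow_mul]; norm_num
  have f2 : (qq ^ e) ^ 2 = dl ^ (2 * (n * (n - 1))) := by
    unfold qq
    rw [← pow_mul, ← pow_mul, ← he]
  have f3 : ((1 - qq) ^ (n ^ 2)) ^ 2 = 4 ^ (n ^ 2) * dl ^ (2 * n ^ 2) := by
    rw [one_sub_qq, mul_pow, mul_pow, ← pow_mul, ← pow_mul, mul_comm (n ^ 2) 2, pow_mul]
    norm_num
  have f4 : kp ^ (n * (2 * n - 1)) * kp ^ n = 8 ^ (n ^ 2) := by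
    rw [← pow_add, ← kp_sq, ← pow_mul]
    congr 1
    rcases n with _ | n
    · simp
    · have : 2 * (n + 1) - 1 = 2 * n + 1 := by omega
      rw [this]; ring
  have f5 : (8 : ℝ) ^ (n ^ 2) = 2 ^ (n ^ 2) * 4 ^ (n ^ 2) := by
    rw [← mul_pow]; norm_num
  have f6 : (4 : ℝ) ^ (n ^ 2) = 4 ^ (n * (n - 1)) * 4 ^ n := by
    rw [← pow_add]; congr 1
    rcases n with _ | n
    · simp
    · simp only [Nat.add_sub_cancel]; ring
  have f7 : dl ^ (2 * n ^ 2) = dl ^ (2 * (n * (n - 1))) * (dl ^ n * dl ^ n) := by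
    rw [← pow_add, ← pow_add]; congr 1
    rcases n with _ | n
    · simp
    · simp only [Nat.add_sub_cancel]; ring
  unfold WW ZM xx
  rw [div_pow, mul_pow, mul_pow, f2, f3, ← hedef, f1, mul_pow]
  have e1 : (4 ^ n * dl ^ n *
      (kp ^ (n * (2 * n - 1)) * dl ^ n * 4 ^ (n * (n - 1)) / sf (2 * n)) *
      ((n.factorial : ℝ) ^ 2 * (sf n ^ 2) ^ 2 * dl ^ (2 * (n * (n - 1))) /
        (4 ^ (n ^ 2) * dl ^ (2 * n ^ 2))) * kp ^ n) =
      (4 ^ n * dl ^ n *
      ((kp ^ (n * (2 * n - 1)) * kp ^ n) * dl ^ n * 4 ^ (n * (n - 1)) / sf (2 * n)) *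
      ((n.factorial : ℝ) ^ 2 * (sf n ^ 2) ^ 2 * dl ^ (2 * (n * (n - 1))) /
        (4 ^ (n ^ 2) * dl ^ (2 * n ^ 2)))) := by ring
  rw [e1, f4, f5, f7]
  have hp1 : (0 : ℝ) < dl ^ n := by positivity
  have hp2 : (0 : ℝ) < dl ^ (2 * (n * (n - 1))) := by positivity
  have hp3 : (0 : ℝ) < (4 : ℝ) ^ (n ^ 2) := by positivity
  field_simp

end Pool.Agent.R161.AzB
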