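import Mathlib
import Pool.Agent.R161.Az.Defs

set_option autoImplicit false

namespace Pool.Agent.R161.AzB

open Pool.Agent.R161.Az

open Finset Matrix Filter Topology

section
variable {R : Type*} [CommRing R]

lemma ix_lt {n : ℕ} (p : Fin n × Fin 2) : ix p < 2 * n := by
  have h1 := p.1.isLt
  have h2 := p.2.isLt
  unfold ix
  omega

lemma ix'_lt {n : ℕ} (p : (Fin n × Fin 2) ⊕ Unit) : ix' p < 2 * n + 1 := by
  rcases p with p | p
  · have := ix_lt p
    simp only [ix']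
    omega
  · simp only [ix']
    omega

lemma PF_congr (n : ℕ) {A B : ℕ → ℕ → R} (h : ∀ i j, i < 2 * n → j < 2 * n → A i j = B i j) :
    PF n A = PF n B := by
  unfold PF
  refine Finset.sum_congr rfl fun σ _ => ?_
  congr 1
  refine Finset.prod_congr rfl fun j _ => ?_
  exact h _ _ (ix_lt _) (ix_lt _)

lemma PFD_congr (n : ℕ) {A B : ℕ → ℕ → R} {f g : ℕ → R}
    (h : ∀ i j, i < 2 * n + 1 → j < 2 * n + 1 → A i j = B i j)
    (h' : ∀ i, i < 2 * n + 1 → f i = g i) :
    PFD n A f = PFD n B g := by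
  unfold PFD
  refine Finset.sum_congr rfl fun σ _ => ?_
  congr 1
  rw [h' _ (ix'_lt _)]
  congr 1
  refine Finset.prod_congr rfl fun j _ => ?_
  exact h _ _ (ix'_lt _) (ix'_lt _)

lemma PF_smul (n : ℕ) (c : R) (A : ℕ → ℕ → R) :
    PF n (fun i j => c * A i j) = c ^ n * PF n A := by
  unfold PF
  rw [Finset.mul_sum]
  refine Finset.sum_congr rfl fun σ _ => ?_
  rw [Finset.prod_mul_distrib, Finset.prod_const, Finset.card_univ, Fintype.card_fin]
  ring

lemma PFD_smul (n : ℕ) (c d : R) (A : ℕ → ℕ → R) (f : ℕ → R) :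
    PFD n (fun i j => c * A i j) (fun i => d * f i) = c ^ n * d * PFD n A f := by
  unfold PFD
  rw [Finset.mul_sum]
  refine Finset.sum_congr rfl fun σ _ => ?_
  rw [Finset.prod_mul_distrib, Finset.prod_const, Finset.card_univ, Fintype.card_fin]
  ring

end

lemma PF_tendsto (n : ℕ) {A : ℕ → ℕ → ℕ → ℝ} {B : ℕ → ℕ → ℝ}
    (h : ∀ i j, Tendsto (fun L => A L i j) atTop (𝓝 (B i j))) :
    Tendsto (fun L => PF n (A L)) atTop (𝓝 (PF n B)) := by
  unfold PF
  refine tendsto_finsetSum _ fun σ _ => ?_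
  refine Tendsto.mul tendsto_const_nhds ?_
  exact tendsto_finsetProd _ fun j _ => h _ _

lemma PFD_tendsto (n : ℕ) {A : ℕ → ℕ → ℕ → ℝ} {B : ℕ → ℕ → ℝ} {f : ℕ → ℕ → ℝ} {g : ℕ → ℝ}
    (h : ∀ i j, Tendsto (fun L => A L i j) atTop (𝓝 (B i j)))
    (h' : ∀ i, Tendsto (fun L => f L i) atTop (𝓝 (g i))) :
    Tendsto (fun L => PFD n (A L) (f L)) atTop (𝓝 (PFD n B g)) := by
  unfold PFD
  refine tendsto_finsetSum _ fun σ _ => ?_
  refine Tendsto.mul tendsto_const_nhds ?_
  refine Tendsto.mul ?_ (h' _)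
  exact tendsto_finsetProd _ fun j _ => h _ _

lemma rr_zero : ∀ (i t : ℕ), 2 * i + 2 ≤ t → rr i t = 0 := by
  intro i
  induction i with
  | zero =>
    intro t ht
    simp only [rr]
    rw [if_neg (by omega)]
  | succ i ih =>
    intro t ht
    have h1 := ih (t - 1) (by omega)
    have h2 := ih t (by omega)
    have h3 := ih (t - 2) (by omega)
    have h4 : t ≠ 0 := by omega
    have h5 : t ≠ 1 := by omega
    simp [rr, h1, h2, h3, h4, h5]

lemma Kf_rr_stable (i j L : ℕ) (hL : i + 1 ≤ L) : Kf rr L i j = Kf rr (i + j + 2) i j := by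
  have key : ∀ L, i + 1 ≤ L → Kf rr L i j = Kf rr (i + 1) i j := by
    intro L hL
    unfold Kf
    symm
    apply Finset.sum_subset
    · intro x hx
      rw [mem_range] at hx ⊢
      omega
    · intro x _ hx
      rw [mem_range] at hx
      rw [rr_zero i (2 * x) (by omega), rr_zero i (2 * x + 1) (by omega)]
      ring
  rw [key L hL, key (i + j + 2) (by omega)]

/-- real version of `rr` -/
noncomputable def rrR (i t : ℕ) : ℝ := (rr i t : ℝ)

lemma Kf_cast (L i j : ℕ) : ((Kf rr L i j : ℤ) : ℝ) = Kf rrR L i j := by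
  unfold Kf rrR
  push_cast
  rfl

lemma PM_det_cast (n : ℕ) (k : Fin n → ℕ) : (((PM n rr k).det : ℤ) : ℝ) = (PM n rrR k).det := by
  have : PM n rrR k = (PM n rr k).map (Int.castRingHom ℝ) := by
    ext p q
    simp [PM, rrR]
  rw [this, ← RingHom.mapMatrix_apply, ← RingHom.map_det]
  simp

lemma PMD_det_cast (n : ℕ) (k : Fin n → ℕ) (t : ℕ) :
    (((PMD n rr k t).det : ℤ) : ℝ) = (PMD n rrR k t).det := by
  have : PMD n rrR k t = (PMD n rr k t).map (Int.castRingHom ℝ) := by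
    ext p q
    simp [PMD, rrR]
  rw [this, ← RingHom.mapMatrix_apply, ← RingHom.map_det]
  simp

theorem tendO (hPF : S_PF) (hSym : S_sym) (hK : S_K) (hTO : S_TO) (n : ℕ) :
    Tendsto (fun L => (4 * dl) ^ n * ∑ k : Fin n → Fin L, (PM n VV (fun j => (k j : ℕ))).det) atTop
      (𝓝 (n.factorial * ((TO n).ncard : ℝ))) := by
  have h1 : Tendsto (fun L => PF n (fun i j => 4 * dl * Kf VV L i j)) atTop
      (𝓝 (PF n (fun i j => ((Kf rr (i + j + 2) i j : ℤ) : ℝ)))) := PF_tendsto n hK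
  have h2 : PF n (fun i j => ((Kf rr (i + j + 2) i j : ℤ) : ℝ)) =
      2 ^ n * (n.factorial * ((TO n).ncard : ℝ)) := by
    have e1 : PF n (fun i j => ((Kf rr (i + j + 2) i j : ℤ) : ℝ)) = PF n (Kf rrR (2 * n)) := by
      apply PF_congr
      intro i j hi hj
      rw [← Kf_cast, Kf_rr_stable i j (2 * n) (by omega)]
    rw [e1, ← hPF n (2 * n) rrR, hSym n (2 * n) rrR]
    congr 2
    have e2 := congrArg (Int.cast (R := ℝ)) (hTO n)
    push_cast at e2
    rw [e2]
    rfl
  have h3 : ∀ L, PF n (fun i j => 4 * dl * Kf VV L i j) =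
      2 ^ n * ((4 * dl) ^ n * ∑ k : Fin n → Fin L, (PM n VV (fun j => (k j : ℕ))).det) := by
    intro L
    rw [PF_smul, ← hPF n L VV]
    ring
  rw [h2] at h1
  simp only [h3] at h1
  have h4 := h1.const_mul ((1 / 2 : ℝ) ^ n)
  have h5 : ∀ x : ℝ, (1 / 2 : ℝ) ^ n * (2 ^ n * x) = x := by
    intro x
    rw [← mul_assoc, ← mul_pow]
    norm_num
  simp only [h5] at h4
  exact h4

theorem tendD (hPFD : S_PFD) (hSym : S_symD) (hK : S_K) (hF : S_F) (hTD : S_TD) (n : ℕ) :
    Tendsto (fun L => (4 * dl) ^ n * √2 * ∑ k : Fin n → Fin L, ∑ t ∈ range (2 * L),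
      (if t % 2 = 0 then 1 else dl) * (PMD n VV (fun j => (k j : ℕ)) t).det) atTop
      (𝓝 (n.factorial * ((TD n).ncard : ℝ))) := by
  have h1 : Tendsto (fun L => PFD n (fun i j => 4 * dl * Kf VV L i j)
      (fun i => √2 * ∑ t ∈ range (2 * L), (if t % 2 = 0 then 1 else dl) * VV i t)) atTop
      (𝓝 (PFD n (fun i j => ((Kf rr (i + j + 2) i j : ℤ) : ℝ))
        (fun i => ((∑ t ∈ range (2 * i + 2), rr i t : ℤ) : ℝ)))) := PFD_tendsto n hK hF
  have h2 : PFD n (fun i j => ((Kf rr (i + j + 2) i j : ℤ) : ℝ))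
        (fun i => ((∑ t ∈ range (2 * i + 2), rr i t : ℤ) : ℝ)) =
      2 ^ n * (n.factorial * ((TD n).ncard : ℝ)) := by
    have e1 : PFD n (fun i j => ((Kf rr (i + j + 2) i j : ℤ) : ℝ))
        (fun i => ((∑ t ∈ range (2 * i + 2), rr i t : ℤ) : ℝ)) = PFD n (Kf rrR (2 * n + 1))
        (fun i => ∑ t ∈ range (2 * (2 * n + 1)), 1 * rrR i t) := by
      apply PFD_congr
      · intro i j hi hj
        rw [← Kf_cast, Kf_rr_stable i j (2 * n + 1) (by omega)]
      · intro i hi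
        push_cast
        simp only [one_mul]
        apply Finset.sum_subset
        · intro x hx
          rw [mem_range] at hx ⊢
          omega
        · intro x _ hx
          rw [mem_range] at hx
          rw [rr_zero i x (by omega)]
          simp
    rw [e1, ← hPFD n (2 * n + 1) (2 * (2 * n + 1)) rrR (fun _ => 1)]
    congr 1
    have e2 := congrArg (Int.cast (R := ℝ)) (hTD n)
    push_cast at e2
    rw [e2, Finset.sum_comm, Finset.sum_comm (s := (univ : Finset (Fin n ↪o Fin (2 * n + 1)))),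
      Finset.mul_sum]
    refine Finset.sum_congr rfl fun t _ => ?_
    simp only [one_mul]
    rw [hSym n (2 * n + 1) t rrR]
    rfl
  have h3 : ∀ L, PFD n (fun i j => 4 * dl * Kf VV L i j)
      (fun i => √2 * ∑ t ∈ range (2 * L), (if t % 2 = 0 then 1 else dl) * VV i t) =
      2 ^ n * ((4 * dl) ^ n * √2 * ∑ k : Fin n → Fin L, ∑ t ∈ range (2 * L),
      (if t % 2 = 0 then 1 else dl) * (PMD n VV (fun j => (k j : ℕ)) t).det) := by
    intro L
    rw [PFD_smul, ← hPFD n L (2 * L) VV (fun t => if t % 2 = 0 then 1 else dl)]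
    ring
  rw [h2] at h1
  simp only [h3] at h1
  have h4 := h1.const_mul ((1 / 2 : ℝ) ^ n)
  have h5 : ∀ x : ℝ, (1 / 2 : ℝ) ^ n * (2 ^ n * x) = x := by
    intro x
    rw [← mul_assoc, ← mul_pow]
    norm_num
  simp only [h5] at h4
  exact h4

end Pool.Agent.R161.AzB
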