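import Mathlib
import Pool.Agent.R161.Az.Defs
import Pool.Agent.R161.Az.Tend
import Pool.Agent.R161.Az.Cst

set_option autoImplicit false

namespace Pool.Agent.R161.AzB

open Pool.Agent.R161.Az

open Finset Matrix Filter Topology

/-- the finite Meixner sums -/
noncomputable def ZL (n L : ℕ) (q : ℝ) : ℝ :=
  ∑ k : Fin n → Fin L, Vd n (fun j => (k j : ℕ)) * q ^ (∑ j, (k j : ℕ))

lemma Vd_nonneg (n : ℕ) (k : Fin n → ℕ) : 0 ≤ Vd n k := by
  unfold Vd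
  exact Finset.prod_nonneg fun i _ => Finset.prod_nonneg fun j _ => sq_nonneg _

lemma exp_sum (n : ℕ) (k : Fin n → ℕ) : dl ^ (∑ j, (4 * k j + 1)) =
    dl ^ n * (qq ^ (∑ j, k j)) ^ 2 := by
  have h : ∑ j, (4 * k j + 1) = n + 2 * 2 * ∑ j, k j := by
    rw [Finset.sum_add_distrib, ← Finset.mul_sum]
    simp
    ring
  rw [h, pow_add]
  unfold qq
  rw [← pow_mul, ← pow_mul]
  congr 2
  ring

lemma sumO_formula (hV : S_V) (n L : ℕ) :
    (4 * dl) ^ n * ∑ k : Fin n → Fin L, (PM n VV (fun j => (k j : ℕ))).det =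
    (4 * dl) ^ n * (kp ^ (n * (2 * n - 1)) * dl ^ n / sf (2 * n)) *
      ∑ k : Fin n → Fin L, Vp n (fun j => (k j : ℕ)) * (qq ^ (∑ j, (k j : ℕ))) ^ 2 := by
  rw [mul_assoc]
  congr 1
  rw [Finset.mul_sum]
  refine Finset.sum_congr rfl fun k _ => ?_
  rw [hV n (fun j => (k j : ℕ)), exp_sum]
  ring

lemma sum_sq_le {ι : Type*} (s : Finset ι) (f : ι → ℝ) (hf : ∀ i ∈ s, 0 ≤ f i) :
    ∑ i ∈ s, f i ^ 2 ≤ (∑ i ∈ s, f i) ^ 2 := by
  rw [sq, Finset.sum_mul]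
  refine Finset.sum_le_sum fun i hi => ?_
  rw [sq]
  exact mul_le_mul_of_nonneg_left (Finset.single_le_sum hf hi) (hf i hi)

lemma upper_L (hV : S_V) (hC : S_cmp) (n L : ℕ) :
    (4 * dl) ^ n * ∑ k : Fin n → Fin L, (PM n VV (fun j => (k j : ℕ))).det ≤
    WW n * ZL n L qq ^ 2 := by
  rw [sumO_formula hV]
  have hd := dl_pos
  have hk := kp_pos
  have hs := sf_pos (2 * n)
  have hq := qq_pos
  have key : ∑ k : Fin n → Fin L, Vp n (fun j => (k j : ℕ)) * (qq ^ (∑ j, (k j : ℕ))) ^ 2 ≤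
      16 ^ (n * (n - 1) / 2) * ZL n L qq ^ 2 := by
    calc ∑ k : Fin n → Fin L, Vp n (fun j => (k j : ℕ)) * (qq ^ (∑ j, (k j : ℕ))) ^ 2
        ≤ ∑ k : Fin n → Fin L, 16 ^ (n * (n - 1) / 2) *
          (Vd n (fun j => (k j : ℕ)) * qq ^ (∑ j, (k j : ℕ))) ^ 2 := by
          refine Finset.sum_le_sum fun k _ => ?_
          rw [mul_pow, ← mul_assoc]
          exact mul_le_mul_of_nonneg_right (hC n (fun j => (k j : ℕ))).1 (by positivity)
      _ = 16 ^ (n * (n - 1) / 2) * ∑ k : Fin n → Fin L,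
          (Vd n (fun j => (k j : ℕ)) * qq ^ (∑ j, (k j : ℕ))) ^ 2 := by rw [Finset.mul_sum]
      _ ≤ 16 ^ (n * (n - 1) / 2) * ZL n L qq ^ 2 := by
          apply mul_le_mul_of_nonneg_left _ (by positivity)
          apply sum_sq_le
          intro k _
          exact mul_nonneg (Vd_nonneg _ _) (by positivity)
  calc _ ≤ (4 * dl) ^ n * (kp ^ (n * (2 * n - 1)) * dl ^ n / sf (2 * n)) *
      (16 ^ (n * (n - 1) / 2) * ZL n L qq ^ 2) := mul_le_mul_of_nonneg_left key (by positivity)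
    _ = _ := by unfold WW; ring

lemma geom_tuple (n L : ℕ) (s : ℝ) :
    ∑ k : Fin n → Fin L, s ^ (∑ j, (k j : ℕ)) = (∑ i ∈ range L, s ^ i) ^ n := by
  have h := Finset.prod_univ_sum (fun _ : Fin n => (univ : Finset (Fin L)))
    (fun _ i => s ^ (i : ℕ))
  rw [Finset.prod_const, Finset.card_univ, Fintype.card_fin] at h
  rw [← Fin.sum_univ_eq_sum_range (fun i => s ^ i) L, h]
  rw [Fintype.piFinset_univ]
  refine Finset.sum_congr rfl fun k _ => ?_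
  rw [Finset.prod_pow_eq_pow_sum]

lemma geom_le (L : ℕ) (s : ℝ) (hs : 0 ≤ s) (hs1 : s < 1) : ∑ i ∈ range L, s ^ i ≤ 1 / (1 - s) := by
  rw [geom_sum_eq (ne_of_lt hs1)]
  rw [← neg_div_neg_eq]
  have h1 : (0 : ℝ) ≤ s ^ L := pow_nonneg hs L
  apply div_le_div₀ (by norm_num) (by linarith) (by linarith) (by linarith)

lemma lower_L (hV : S_V) (hC : S_cmp) (n L : ℕ) (s : ℝ) (hs : 0 < s) (hs1 : s < 1) :
    WW n * (1 / 6) ^ n * (1 - s) ^ n * ZL n L (qq * s) ^ 2 ≤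
    (4 * dl) ^ n * ∑ k : Fin n → Fin L, (PM n VV (fun j => (k j : ℕ))).det := by
  rw [sumO_formula hV]
  have hd := dl_pos
  have hk := kp_pos
  have hsf := sf_pos (2 * n)
  have hq := qq_pos
  set S : ℝ := ∑ k : Fin n → Fin L, (Vd n (fun j => (k j : ℕ)) * qq ^ (∑ j, (k j : ℕ))) ^ 2 with hS
  have c1 : ZL n L (qq * s) ^ 2 ≤ S * (1 / (1 - s)) ^ n := by
    have h1 : ZL n L (qq * s) = ∑ k : Fin n → Fin L,
        (Vd n (fun j => (k j : ℕ)) * qq ^ (∑ j, (k j : ℕ))) * s ^ (∑ j, (k j : ℕ)) := by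
      unfold ZL
      refine Finset.sum_congr rfl fun k _ => ?_
      rw [mul_pow]; ring
    rw [h1]
    refine le_trans (Finset.sum_mul_sq_le_sq_mul_sq _ _ _) ?_
    apply mul_le_mul_of_nonneg_left _ (Finset.sum_nonneg fun k _ => sq_nonneg _)
    calc ∑ k : Fin n → Fin L, (s ^ (∑ j, (k j : ℕ))) ^ 2
        ≤ ∑ k : Fin n → Fin L, s ^ (∑ j, (k j : ℕ)) := by
          refine Finset.sum_le_sum fun k _ => ?_
          have h2 : (0 : ℝ) ≤ s ^ (∑ j, (k j : ℕ)) := by positivity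
          have h3 : s ^ (∑ j, (k j : ℕ)) ≤ 1 := pow_le_one₀ hs.le hs1.le
          rw [sq]
          exact mul_le_of_le_one_left h2 h3
      _ = (∑ i ∈ range L, s ^ i) ^ n := geom_tuple n L s
      _ ≤ (1 / (1 - s)) ^ n := pow_le_pow_left₀ (Finset.sum_nonneg fun i _ => by positivity)
          (geom_le L s hs.le hs1) n
  have c2 : (1 - s) ^ n * ZL n L (qq * s) ^ 2 ≤ S := by
    have h1 : 0 < 1 - s := by linarith
    have h2 := mul_le_mul_of_nonneg_left c1 (pow_pos h1 n).le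
    refine le_trans h2 (le_of_eq ?_)
    rw [mul_comm S, ← mul_assoc, ← mul_pow, mul_one_div_cancel h1.ne', one_pow, one_mul]
  have c3 : (1 / 6 : ℝ) ^ n * 16 ^ (n * (n - 1) / 2) * S ≤
      ∑ k : Fin n → Fin L, Vp n (fun j => (k j : ℕ)) * (qq ^ (∑ j, (k j : ℕ))) ^ 2 := by
    rw [hS, Finset.mul_sum]
    refine Finset.sum_le_sum fun k _ => ?_
    have h1 := (hC n (fun j => (k j : ℕ))).2.1
    have h2 : (1 / 6 : ℝ) ^ n * (16 ^ (n * (n - 1) / 2) * Vd n (fun j => (k j : ℕ)) ^ 2) ≤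
        Vp n (fun j => (k j : ℕ)) := by
      have h3 := mul_le_mul_of_nonneg_left h1 (by positivity : (0 : ℝ) ≤ (1 / 6) ^ n)
      refine le_trans h3 (le_of_eq ?_)
      rw [← mul_assoc, ← mul_pow]
      norm_num
    rw [mul_pow]
    calc _ = ((1 / 6 : ℝ) ^ n * (16 ^ (n * (n - 1) / 2) * Vd n (fun j => (k j : ℕ)) ^ 2)) *
          (qq ^ (∑ j, (k j : ℕ))) ^ 2 := by ring
      _ ≤ _ := mul_le_mul_of_nonneg_right h2 (by positivity)
  calc WW n * (1 / 6) ^ n * (1 - s) ^ n * ZL n L (qq * s) ^ 2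
      = (4 * dl) ^ n * (kp ^ (n * (2 * n - 1)) * dl ^ n / sf (2 * n)) *
        ((1 / 6 : ℝ) ^ n * 16 ^ (n * (n - 1) / 2) * ((1 - s) ^ n * ZL n L (qq * s) ^ 2)) := by
        unfold WW; ring
    _ ≤ (4 * dl) ^ n * (kp ^ (n * (2 * n - 1)) * dl ^ n / sf (2 * n)) *
        ((1 / 6 : ℝ) ^ n * 16 ^ (n * (n - 1) / 2) * S) := by
        apply mul_le_mul_of_nonneg_left _ (by positivity)
        exact mul_le_mul_of_nonneg_left c2 (by positivity)
    _ ≤ _ := mul_le_mul_of_nonneg_left c3 (by positivity)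

/-- limit versions -/
theorem upper_O (hV : S_V) (hC : S_cmp) (hM : S_M) (n : ℕ) (a : ℝ)
    (ha : Tendsto (fun L => (4 * dl) ^ n * ∑ k : Fin n → Fin L,
      (PM n VV (fun j => (k j : ℕ))).det) atTop (𝓝 a)) :
    a ≤ WW n * ZM n qq ^ 2 := by
  have h1 := ((hM n qq qq_pos (by linarith [qq_lt])).pow 2).const_mul (WW n)
  exact le_of_tendsto_of_tendsto' ha h1 (fun L => upper_L hV hC n L)

theorem lower_O (hV : S_V) (hC : S_cmp) (hM : S_M) (n : ℕ) (a : ℝ)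
    (ha : Tendsto (fun L => (4 * dl) ^ n * ∑ k : Fin n → Fin L,
      (PM n VV (fun j => (k j : ℕ))).det) atTop (𝓝 a)) (s : ℝ) (hs : 0 < s) (hs1 : s < 1) :
    WW n * (1 / 6) ^ n * (1 - s) ^ n * ZM n (qq * s) ^ 2 ≤ a := by
  have hq := qq_pos
  have hq' := qq_lt
  have h1 := ((hM n (qq * s) (by positivity) (by nlinarith)).pow 2).const_mul
    (WW n * (1 / 6) ^ n * (1 - s) ^ n)
  exact le_of_tendsto_of_tendsto' h1 ha (fun L => lower_L hV hC n L s hs hs1)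

end Pool.Agent.R161.AzB
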