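import Mathlib
import Pool.Agent.R161.Az.Defs
import Pool.Agent.R161.Az.Tend
import Pool.Agent.R161.Az.Cst
import Pool.Agent.R161.Az.BdO

set_option autoImplicit false

namespace Pool.Agent.R161.AzB

open Pool.Agent.R161.Az

open Finset Matrix Filter Topology

lemma consec_nonneg (t a : ℕ) : 0 ≤ ((t : ℝ) - 2 * a) * ((t : ℝ) - 2 * a - 1) := by
  rcases Nat.lt_or_ge t (2 * a + 1) with h | h
  · have h1 : (t : ℝ) ≤ 2 * a := by exact_mod_cast (by omega : t ≤ 2 * a)
    nlinarith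
  · have h1 : (2 * a + 1 : ℝ) ≤ t := by exact_mod_cast h
    nlinarith

lemma consec_le (t a : ℕ) : ((t : ℝ) - 2 * a) * ((t : ℝ) - 2 * a - 1) ≤
    ((t : ℝ) + 1) ^ 2 * (2 * (a : ℝ) + 1) ^ 2 := by
  have ht : (0 : ℝ) ≤ t := Nat.cast_nonneg t
  have ha : (0 : ℝ) ≤ a := Nat.cast_nonneg a
  have hta : (0 : ℝ) ≤ t * a := mul_nonneg ht ha
  have h1 : |(t : ℝ) - 2 * a| ≤ (t + 1) * (2 * a + 1) := by
    rw [abs_le]; constructor <;> nlinarith
  have h2 : |(t : ℝ) - 2 * a - 1| ≤ (t + 1) * (2 * a + 1) := by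
    rw [abs_le]; constructor <;> nlinarith
  calc ((t : ℝ) - 2 * a) * ((t : ℝ) - 2 * a - 1) ≤ |((t : ℝ) - 2 * a) * ((t : ℝ) - 2 * a - 1)| :=
        le_abs_self _
    _ = |(t : ℝ) - 2 * a| * |(t : ℝ) - 2 * a - 1| := abs_mul _ _
    _ ≤ ((t + 1) * (2 * a + 1)) * ((t + 1) * (2 * a + 1)) :=
        mul_le_mul h1 h2 (abs_nonneg _) (by positivity)
    _ = _ := by ring

lemma DD_nonneg (hVD : S_VD) (hC : S_cmp) (n : ℕ) (k : Fin n → ℕ) (t : ℕ) :
    0 ≤ (PMD n VV k t).det := by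
  rw [hVD]
  have hd := dl_pos
  have hk := kp_pos
  have hs := sf_pos (2 * n + 1)
  have h1 := (hC n k).2.2
  have h2 : 0 ≤ ∏ j, (((t : ℝ) - 2 * k j) * ((t : ℝ) - 2 * k j - 1)) :=
    Finset.prod_nonneg fun j _ => consec_nonneg t (k j)
  positivity

lemma Vp_shift (n : ℕ) (k : Fin n → ℕ) : Vp n (fun j => k j + 1) = Vp n k := by
  unfold Vp
  refine Finset.prod_congr rfl fun i _ => Finset.prod_congr rfl fun j _ => ?_
  push_cast
  congr 1 <;> ring

lemma phi_nonneg (t : ℕ) : (0 : ℝ) ≤ (if t % 2 = 0 then 1 else dl) := by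
  split_ifs
  · norm_num
  · exact dl_pos.le

lemma phi_le (t : ℕ) : (if t % 2 = 0 then (1 : ℝ) else dl) ≤ 1 := by
  split_ifs
  · norm_num
  · linarith [dl_lt]

lemma lower_DL (hV : S_V) (hVD : S_VD) (hC : S_cmp) (n L : ℕ) :
    √2 * kp ^ (2 * n) * dl ^ (4 * n) / (2 * n).factorial *
      ((4 * dl) ^ n * ∑ k : Fin n → Fin L, (PM n VV (fun j => (k j : ℕ))).det) ≤
    (4 * dl) ^ n * √2 * ∑ k : Fin n → Fin (L + 1), ∑ t ∈ range (2 * (L + 1)),
      (if t % 2 = 0 then 1 else dl) * (PMD n VV (fun j => (k j : ℕ)) t).det := by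
  have hd := dl_pos
  have hk := kp_pos
  have hs := sf_pos (2 * n)
  have h2 : (0 : ℝ) < √2 := by positivity
  set F : (Fin n → Fin (L + 1)) → ℝ := fun k => ∑ t ∈ range (2 * (L + 1)),
      (if t % 2 = 0 then 1 else dl) * (PMD n VV (fun j => (k j : ℕ)) t).det with hF
  have hF0 : ∀ k, 0 ≤ F k := fun k => Finset.sum_nonneg fun t _ =>
    mul_nonneg (phi_nonneg t) (DD_nonneg hVD hC n _ t)
  have c1 : ∑ k : Fin n → Fin L, F (fun j => (k j).succ) ≤ ∑ k, F k := by
    classical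
    have hinj : Function.Injective (fun (k : Fin n → Fin L) (j : Fin n) => (k j).succ) := by
      intro k k' h
      funext j
      have := congrFun h j
      exact Fin.succ_injective _ this
    rw [← Finset.sum_image (f := F) (s := univ) (g := fun (k : Fin n → Fin L) (j : Fin n) => (k j).succ)
      (fun x _ y _ h => hinj h)]
    exact Finset.sum_le_sum_of_subset_of_nonneg (Finset.subset_univ _) fun k _ _ => hF0 k
  have c2 : ∀ k : Fin n → Fin L, kp ^ (2 * n) * dl ^ (4 * n) / (2 * n).factorial *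
      (PM n VV (fun j => (k j : ℕ))).det ≤ F (fun j => (k j).succ) := by
    intro k
    have d1 : (PMD n VV (fun j => (((k j).succ : Fin (L + 1)) : ℕ)) 0).det ≤
        F (fun j => (k j).succ) := by
      have := Finset.single_le_sum (s := range (2 * (L + 1)))
        (f := fun t => (if t % 2 = 0 then 1 else dl) *
          (PMD n VV (fun j => (((k j).succ : Fin (L + 1)) : ℕ)) t).det)
        (fun t _ => mul_nonneg (phi_nonneg t) (DD_nonneg hVD hC n _ t))
        (mem_range.2 (by omega : 0 < 2 * (L + 1)))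
      refine le_trans (le_of_eq ?_) this
      simp
    refine le_trans ?_ d1
    rw [hVD, hV]
    have e1 : (fun j => (((k j).succ : Fin (L + 1)) : ℕ)) = fun j => (k j : ℕ) + 1 := by
      funext j; simp
    have e2 : Vp n (fun j => (((k j).succ : Fin (L + 1)) : ℕ)) = Vp n (fun j => (k j : ℕ)) := by
      rw [e1]; exact Vp_shift n (fun j => (k j : ℕ))
    have e3 : ∑ j, (4 * (((k j).succ : Fin (L + 1)) : ℕ) + 1) + 0 =
        4 * n + ∑ j, (4 * (k j : ℕ) + 1) := by
      simp only [Fin.val_succ, add_zero]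
      rw [show (fun j : Fin n => 4 * ((k j : ℕ) + 1) + 1) = fun j => 4 + (4 * (k j : ℕ) + 1) by
        funext j; ring]
      rw [Finset.sum_add_distrib (f := fun _ => 4)]
      simp
      ring
    have e4 : (1 : ℝ) ≤ ∏ j, ((((0 : ℕ) : ℝ) - 2 * (((k j).succ : Fin (L + 1)) : ℕ)) *
        (((0 : ℕ) : ℝ) - 2 * (((k j).succ : Fin (L + 1)) : ℕ) - 1)) := by
      calc (1 : ℝ) = ∏ _j : Fin n, (1 : ℝ) := by simp
        _ ≤ _ := by
          refine Finset.prod_le_prod (fun _ _ => zero_le_one) ?_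
          intro j _
          have h : (0 : ℝ) ≤ (k j : ℕ) := Nat.cast_nonneg _
          simp only [Fin.val_succ]
          push_cast
          nlinarith
    have e5 : kp ^ (n * (2 * n + 1)) = kp ^ (n * (2 * n - 1)) * kp ^ (2 * n) := by
      rw [← pow_add]; congr 1
      rcases n with _ | n
      · simp
      · have : 2 * (n + 1) - 1 = 2 * n + 1 := by omega
        rw [this]; ring
    rw [e2, e3, e5, sf_succ, pow_add]
    have hVp := (hC n (fun j => (k j : ℕ))).2.2
    have hfac : (0 : ℝ) < (2 * n).factorial := by positivity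
    set P := ∏ j, ((((0 : ℕ) : ℝ) - 2 * (((k j).succ : Fin (L + 1)) : ℕ)) *
        (((0 : ℕ) : ℝ) - 2 * (((k j).succ : Fin (L + 1)) : ℕ) - 1)) with hP
    set X := Vp n (fun j => (k j : ℕ)) with hX
    set Y := dl ^ (∑ j, (4 * (k j : ℕ) + 1)) with hY
    have hY0 : 0 < Y := by positivity
    have e6 : kp ^ (2 * n) * dl ^ (4 * n) / (2 * n).factorial *
        (kp ^ (n * (2 * n - 1)) * Y * X / sf (2 * n)) =
        (kp ^ (n * (2 * n - 1)) * kp ^ (2 * n) * (dl ^ (4 * n) * Y) /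
          (sf (2 * n) * (2 * n).factorial)) * X := by
      field_simp
    have e7 : kp ^ (n * (2 * n - 1)) * kp ^ (2 * n) * (dl ^ (4 * n) * Y) * (X * P) /
          (sf (2 * n) * (2 * n).factorial) =
        (kp ^ (n * (2 * n - 1)) * kp ^ (2 * n) * (dl ^ (4 * n) * Y) /
          (sf (2 * n) * (2 * n).factorial)) * (X * P) := by
      field_simp
    rw [e6, e7]
    apply mul_le_mul_of_nonneg_left _ (by positivity)
    nlinarith
  calc √2 * kp ^ (2 * n) * dl ^ (4 * n) / (2 * n).factorial *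
      ((4 * dl) ^ n * ∑ k : Fin n → Fin L, (PM n VV (fun j => (k j : ℕ))).det)
      = (4 * dl) ^ n * √2 * ∑ k : Fin n → Fin L, kp ^ (2 * n) * dl ^ (4 * n) / (2 * n).factorial *
      (PM n VV (fun j => (k j : ℕ))).det := by
        rw [← Finset.mul_sum]; ring
    _ ≤ (4 * dl) ^ n * √2 * ∑ k : Fin n → Fin L, F (fun j => (k j).succ) := by
        apply mul_le_mul_of_nonneg_left _ (by positivity)
        exact Finset.sum_le_sum fun k _ => c2 k
    _ ≤ _ := mul_le_mul_of_nonneg_left c1 (by positivity)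

theorem lower_D (hV : S_V) (hVD : S_VD) (hC : S_cmp) (n : ℕ) (a b : ℝ)
    (ha : Tendsto (fun L => (4 * dl) ^ n * ∑ k : Fin n → Fin L,
      (PM n VV (fun j => (k j : ℕ))).det) atTop (𝓝 a))
    (hb : Tendsto (fun L => (4 * dl) ^ n * √2 * ∑ k : Fin n → Fin L, ∑ t ∈ range (2 * L),
      (if t % 2 = 0 then 1 else dl) * (PMD n VV (fun j => (k j : ℕ)) t).det) atTop (𝓝 b)) :
    √2 * kp ^ (2 * n) * dl ^ (4 * n) / (2 * n).factorial * a ≤ b := by
  have h1 := ha.const_mul (√2 * kp ^ (2 * n) * dl ^ (4 * n) / (2 * n).factorial)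
  have h2 := hb.comp (tendsto_add_atTop_nat 1)
  exact le_of_tendsto_of_tendsto' h1 h2 (fun L => lower_DL hV hVD hC n L)

lemma geom_pow (p L : ℕ) (x : ℝ) (hx : 0 ≤ x) (hx1 : x < 1) :
    ∑ t ∈ range L, x ^ t * ((t : ℝ) + 1) ^ p ≤ p.factorial / (1 - x) ^ (p + 1) := by
  have hn : ‖x‖ < 1 := by rw [Real.norm_of_nonneg hx]; exact hx1
  have h1 := summable_choose_mul_geometric_of_norm_lt_one p hn
  have h2 := tsum_choose_mul_geometric_of_norm_lt_one p hn
  have h3 : ∑ t ∈ range L, ((t + p).choose p : ℝ) * x ^ t ≤ 1 / (1 - x) ^ (p + 1) := by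
    rw [← h2]
    exact h1.sum_le_tsum _ (fun i _ => by positivity)
  calc ∑ t ∈ range L, x ^ t * ((t : ℝ) + 1) ^ p
      ≤ ∑ t ∈ range L, p.factorial * (((t + p).choose p : ℝ) * x ^ t) := by
        refine Finset.sum_le_sum fun t _ => ?_
        have h4 : (t + 1) ^ p ≤ p.factorial * (t + p).choose p := by
          have h5 := Nat.pow_succ_le_ascFactorial (t + 1) p
          have h6 := Nat.ascFactorial_eq_factorial_mul_choose t p
          omega
        have h7 : ((t : ℝ) + 1) ^ p ≤ p.factorial * ((t + p).choose p : ℝ) := by exact_mod_cast h4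
        have h8 : (0 : ℝ) ≤ x ^ t := by positivity
        nlinarith
    _ = p.factorial * ∑ t ∈ range L, ((t + p).choose p : ℝ) * x ^ t := by rw [Finset.mul_sum]
    _ ≤ p.factorial * (1 / (1 - x) ^ (p + 1)) := mul_le_mul_of_nonneg_left h3 (by positivity)
    _ = _ := by ring

end Pool.Agent.R161.AzB
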