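import Mathlib
import Pool.Agent.R161.Az.Defs
import Pool.Agent.R161.Az.Tend
import Pool.Agent.R161.Az.Cst
import Pool.Agent.R161.Az.BdO
import Pool.Agent.R161.Az.BdD

set_option autoImplicit false

namespace Pool.Agent.R161.AzB

open Pool.Agent.R161.Az

open Finset Matrix Filter Topology

lemma odd_le_pow (n : ℕ) (hn : 1 ≤ n) (k : ℕ) :
    2 * (k : ℝ) + 1 ≤ (2 * n + 1) * (1 + 1 / (n : ℝ)) ^ k := by
  have hn0 : (1 : ℝ) ≤ n := by exact_mod_cast hn
  have hk : (0 : ℝ) ≤ k := Nat.cast_nonneg k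
  have h1 : 1 + (k : ℝ) * (1 / (n : ℝ)) ≤ (1 + 1 / (n : ℝ)) ^ k :=
    one_add_mul_le_pow (by have : (0 : ℝ) ≤ 1 / n := by positivity
                           linarith) k
  have h2 : (2 * (n : ℝ) + 1) * (1 + (k : ℝ) * (1 / (n : ℝ))) =
      2 * n + 1 + 2 * k + k / n := by field_simp; ring
  have h3 : (0 : ℝ) ≤ k / n := by positivity
  calc 2 * (k : ℝ) + 1 ≤ (2 * (n : ℝ) + 1) * (1 + (k : ℝ) * (1 / (n : ℝ))) := by
        rw [h2]; linarith
    _ ≤ _ := mul_le_mul_of_nonneg_left h1 (by linarith)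

lemma upper_DL (hVD : S_VD) (hC : S_cmp) (n L : ℕ) (hn : 1 ≤ n) :
    (4 * dl) ^ n * √2 * ∑ k : Fin n → Fin L, ∑ t ∈ range (2 * L),
      (if t % 2 = 0 then 1 else dl) * (PMD n VV (fun j => (k j : ℕ)) t).det ≤
    WW n * (kp ^ (2 * n) * √2 * (2 * n + 1) ^ (2 * n) / (1 - dl) ^ (2 * n + 1)) *
      ZL n L (qq * (1 + 1 / (n : ℝ))) ^ 2 := by
  have hd := dl_pos
  have hd1 : 0 < 1 - dl := by linarith [dl_lt]
  have hk := kp_pos
  have hs := sf_pos (2 * n)
  have hq := qq_pos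
  have h2 : (0 : ℝ) < √2 := by positivity
  have hn0 : (1 : ℝ) ≤ n := by exact_mod_cast hn
  set r : ℝ := 1 + 1 / (n : ℝ) with hr
  have hr0 : 0 < r := by positivity
  set c : ℝ := kp ^ (n * (2 * n + 1)) / sf (2 * n + 1) with hc
  have hc0 : 0 < c := by
    have := sf_pos (2 * n + 1)
    positivity
  have step1 : ∀ (k : Fin n → ℕ) (t : ℕ),
      (if t % 2 = 0 then 1 else dl) * (PMD n VV k t).det ≤
      (c * dl ^ n * (16 ^ (n * (n - 1) / 2) * ((2 * n + 1) ^ (2 * n) *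
        (Vd n k * (qq * r) ^ (∑ j, k j)) ^ 2))) * (dl ^ t * ((t : ℝ) + 1) ^ (2 * n)) := by
    intro k t
    have hVp := (hC n k).2.2
    have hVp1 := (hC n k).1
    have a1 : (if t % 2 = 0 then (1 : ℝ) else dl) * (PMD n VV k t).det ≤ (PMD n VV k t).det :=
      mul_le_of_le_one_left (DD_nonneg hVD hC n k t) (phi_le t)
    refine le_trans a1 ?_
    rw [hVD, pow_add, exp_sum]
    have b1 : ∏ j, (((t : ℝ) - 2 * k j) * ((t : ℝ) - 2 * k j - 1)) ≤
        ((t : ℝ) + 1) ^ (2 * n) * ((2 * n + 1) ^ (2 * n) * (r ^ (∑ j, k j)) ^ 2) := by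
      calc ∏ j, (((t : ℝ) - 2 * k j) * ((t : ℝ) - 2 * k j - 1))
          ≤ ∏ j, (((t : ℝ) + 1) ^ 2 * ((2 * n + 1) ^ 2 * (r ^ k j) ^ 2)) := by
            refine Finset.prod_le_prod (fun j _ => consec_nonneg t (k j)) fun j _ => ?_
            refine le_trans (consec_le t (k j)) ?_
            apply mul_le_mul_of_nonneg_left _ (by positivity)
            rw [← mul_pow]
            exact pow_le_pow_left₀ (by positivity) (odd_le_pow n hn (k j)) 2
        _ = _ := by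
            rw [Finset.prod_mul_distrib, Finset.prod_mul_distrib, Finset.prod_const,
              Finset.prod_const, Finset.card_univ, Fintype.card_fin, Finset.prod_pow,
              Finset.prod_pow_eq_pow_sum, ← pow_mul, ← pow_mul]
    calc kp ^ (n * (2 * n + 1)) * (dl ^ n * (qq ^ (∑ j, k j)) ^ 2 * dl ^ t) *
          (Vp n k * ∏ j, (((t : ℝ) - 2 * k j) * ((t : ℝ) - 2 * k j - 1))) / sf (2 * n + 1)
        = c * (dl ^ n * (qq ^ (∑ j, k j)) ^ 2 * dl ^ t) *
          (Vp n k * ∏ j, (((t : ℝ) - 2 * k j) * ((t : ℝ) - 2 * k j - 1))) := by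
          rw [hc]; ring
      _ ≤ c * (dl ^ n * (qq ^ (∑ j, k j)) ^ 2 * dl ^ t) *
          ((16 ^ (n * (n - 1) / 2) * Vd n k ^ 2) *
          (((t : ℝ) + 1) ^ (2 * n) * ((2 * n + 1) ^ (2 * n) * (r ^ (∑ j, k j)) ^ 2))) := by
          apply mul_le_mul_of_nonneg_left _ (by positivity)
          exact mul_le_mul hVp1 b1 (Finset.prod_nonneg fun j _ => consec_nonneg t (k j))
            (by positivity)
      _ = _ := by
          rw [mul_pow qq r]
          ring
  have step2 : ∀ k : Fin n → Fin L, ∑ t ∈ range (2 * L),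
      (if t % 2 = 0 then 1 else dl) * (PMD n VV (fun j => (k j : ℕ)) t).det ≤
      (c * dl ^ n * (16 ^ (n * (n - 1) / 2) * ((2 * n + 1) ^ (2 * n) *
        (Vd n (fun j => (k j : ℕ)) * (qq * r) ^ (∑ j, (k j : ℕ))) ^ 2))) *
        ((2 * n).factorial / (1 - dl) ^ (2 * n + 1)) := by
    intro k
    refine le_trans (Finset.sum_le_sum fun t _ => step1 (fun j => (k j : ℕ)) t) ?_
    rw [← Finset.mul_sum]
    apply mul_le_mul_of_nonneg_left (geom_pow (2 * n) (2 * L) dl hd.le (by linarith [dl_lt]))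
    positivity
  have e5 : kp ^ (n * (2 * n + 1)) = kp ^ (n * (2 * n - 1)) * kp ^ (2 * n) := by
    rw [← pow_add]; congr 1
    rcases n with _ | n
    · simp
    · have : 2 * (n + 1) - 1 = 2 * n + 1 := by omega
      rw [this]; ring
  have hfac : (0 : ℝ) < (2 * n).factorial := by positivity
  calc _ ≤ (4 * dl) ^ n * √2 * ∑ k : Fin n → Fin L,
      (c * dl ^ n * (16 ^ (n * (n - 1) / 2) * ((2 * n + 1) ^ (2 * n) *
        (Vd n (fun j => (k j : ℕ)) * (qq * r) ^ (∑ j, (k j : ℕ))) ^ 2))) *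
        ((2 * n).factorial / (1 - dl) ^ (2 * n + 1)) := by
        apply mul_le_mul_of_nonneg_left _ (by positivity)
        exact Finset.sum_le_sum fun k _ => step2 k
    _ = ((4 * dl) ^ n * √2 * (c * dl ^ n * (16 ^ (n * (n - 1) / 2) * (2 * n + 1) ^ (2 * n)) *
        ((2 * n).factorial / (1 - dl) ^ (2 * n + 1)))) * ∑ k : Fin n → Fin L,
        (Vd n (fun j => (k j : ℕ)) * (qq * r) ^ (∑ j, (k j : ℕ))) ^ 2 := by
        rw [Finset.mul_sum, Finset.mul_sum]
        refine Finset.sum_congr rfl fun k _ => ?_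
        ring
    _ ≤ ((4 * dl) ^ n * √2 * (c * dl ^ n * (16 ^ (n * (n - 1) / 2) * (2 * n + 1) ^ (2 * n)) *
        ((2 * n).factorial / (1 - dl) ^ (2 * n + 1)))) * ZL n L (qq * r) ^ 2 := by
        apply mul_le_mul_of_nonneg_left _ (by positivity)
        apply sum_sq_le
        intro k _
        exact mul_nonneg (Vd_nonneg _ _) (by positivity)
    _ = _ := by
        rw [hc, e5, sf_succ]
        unfold WW
        field_simp

theorem upper_D (hVD : S_VD) (hC : S_cmp) (hM : S_M) (n : ℕ) (hn : 1 ≤ n) (b : ℝ)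
    (hb : Tendsto (fun L => (4 * dl) ^ n * √2 * ∑ k : Fin n → Fin L, ∑ t ∈ range (2 * L),
      (if t % 2 = 0 then 1 else dl) * (PMD n VV (fun j => (k j : ℕ)) t).det) atTop (𝓝 b)) :
    b ≤ WW n * (kp ^ (2 * n) * √2 * (2 * n + 1) ^ (2 * n) / (1 - dl) ^ (2 * n + 1)) *
      ZM n (qq * (1 + 1 / (n : ℝ))) ^ 2 := by
  have hq := qq_pos
  have hq' := qq_lt
  have hn0 : (1 : ℝ) ≤ n := by exact_mod_cast hn
  have hn1 : 1 / (n : ℝ) ≤ 1 := by
    rw [div_le_one (by linarith)]; exact hn0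
  have h1 := ((hM n (qq * (1 + 1 / (n : ℝ))) (by positivity) (by nlinarith)).pow 2).const_mul
    (WW n * (kp ^ (2 * n) * √2 * (2 * n + 1) ^ (2 * n) / (1 - dl) ^ (2 * n + 1)))
  exact le_of_tendsto_of_tendsto' hb h1 (fun L => upper_DL hVD hC n L hn)

end Pool.Agent.R161.AzB
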