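import Mathlib
import Pool.Agent.R161.Az.Defs
import Pool.Agent.R161.Az.Tend
import Pool.Agent.R161.Az.Cst
import Pool.Agent.R161.Az.BdO
import Pool.Agent.R161.Az.BdD
import Pool.Agent.R161.Az.BdU

set_option autoImplicit false

namespace Pool.Agent.R161.AzB

open Pool.Agent.R161.Az

open Finset Matrix Filter Topology

lemma e_le (n : ℕ) : n * (n - 1) / 2 ≤ n * n := by
  have h1 : n * (n - 1) ≤ n * n := Nat.mul_le_mul_left n (Nat.sub_le n 1)
  omega

lemma ZM_pos (n : ℕ) (q : ℝ) (hq : 0 < q) (hq1 : q < 1) : 0 < ZM n q := by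
  unfold ZM
  have := sf_pos n
  have : 0 < 1 - q := by linarith
  positivity

lemma ZM_lower (n : ℕ) (hn : 1 ≤ n) :
    ZM n qq * ((1 / ((n : ℝ) + 1)) ^ n * (1 / 2) ^ n) ≤ ZM n (qq * (n / ((n : ℝ) + 1))) := by
  have hn0 : (1 : ℝ) ≤ n := by exact_mod_cast hn
  have hq := qq_pos
  have hq' := qq_lt
  set s : ℝ := n / ((n : ℝ) + 1) with hs
  have hs0 : 0 < s := by positivity
  have hs1 : s < 1 := by rw [hs, div_lt_one (by linarith)]; linarith
  have hs2 : s = 1 - 1 / ((n : ℝ) + 1) := by rw [hs]; field_simp; ring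
  have hsf := sf_pos n
  have g1 : (1 / ((n : ℝ) + 1)) ^ n ≤ s ^ (n * (n - 1) / 2) := by
    have h1 : s ^ (n * n) ≤ s ^ (n * (n - 1) / 2) :=
      pow_le_pow_of_le_one hs0.le hs1.le (e_le n)
    have h2 : 1 / ((n : ℝ) + 1) ≤ s ^ n := by
      have h3 := one_add_mul_le_pow (a := -(1 / ((n : ℝ) + 1))) (by
        have : 1 / ((n : ℝ) + 1) ≤ 1 := by rw [div_le_one (by linarith)]; linarith
        linarith) n
      have h4 : 1 + (n : ℝ) * -(1 / ((n : ℝ) + 1)) = 1 / ((n : ℝ) + 1) := by field_simp; ring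
      have h5 : 1 + -(1 / ((n : ℝ) + 1)) = s := by rw [hs2]; ring
      rw [h4, h5] at h3
      exact h3
    calc (1 / ((n : ℝ) + 1)) ^ n ≤ (s ^ n) ^ n := pow_le_pow_left₀ (by positivity) h2 n
      _ = s ^ (n * n) := by rw [← pow_mul]
      _ ≤ _ := h1
  have hA : 0 < 1 - qq := by linarith
  have hB : 0 < 1 - qq * s := by nlinarith
  have g2 : (1 / 2 : ℝ) ^ n * (1 - qq * s) ^ (n ^ 2) ≤ (1 - qq) ^ (n ^ 2) := by
    have h1 : 1 - 1 / (2 * ((n : ℝ) + 1)) ≤ (1 - qq) / (1 - qq * s) := by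
      rw [le_div_iff₀ hB, hs2]
      have hu : 0 < 1 / ((n : ℝ) + 1) := by positivity
      have hu1 : 1 / ((n : ℝ) + 1) ≤ 1 := by rw [div_le_one (by linarith)]; linarith
      have e1 : 1 / (2 * ((n : ℝ) + 1)) = (1 / ((n : ℝ) + 1)) / 2 := by field_simp
      rw [e1]
      set u := 1 / ((n : ℝ) + 1) with hu'
      nlinarith [mul_pos hq hu]
    have h2 : (1 / 2 : ℝ) ≤ (1 - 1 / (2 * ((n : ℝ) + 1))) ^ n := by
      have h3 := one_add_mul_le_pow (a := -(1 / (2 * ((n : ℝ) + 1)))) (by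
        have : 1 / (2 * ((n : ℝ) + 1)) ≤ 1 := by rw [div_le_one (by linarith)]; linarith
        linarith) n
      have h4 : (1 / 2 : ℝ) ≤ 1 + (n : ℝ) * -(1 / (2 * ((n : ℝ) + 1))) := by
        have : (n : ℝ) * (1 / (2 * ((n : ℝ) + 1))) ≤ 1 / 2 := by
          rw [mul_one_div, div_le_div_iff₀ (by linarith) (by norm_num)]
          linarith
        linarith
      refine le_trans h4 (le_trans h3 (le_of_eq ?_))
      congr 1
    have h5 : (1 / 2 : ℝ) ^ n ≤ ((1 - qq) / (1 - qq * s)) ^ (n ^ 2) := by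
      have h6 : 0 ≤ 1 - 1 / (2 * ((n : ℝ) + 1)) := by
        have : 1 / (2 * ((n : ℝ) + 1)) ≤ 1 := by rw [div_le_one (by linarith)]; linarith
        linarith
      calc (1 / 2 : ℝ) ^ n ≤ ((1 - 1 / (2 * ((n : ℝ) + 1))) ^ n) ^ n :=
            pow_le_pow_left₀ (by norm_num) h2 n
        _ = (1 - 1 / (2 * ((n : ℝ) + 1))) ^ (n ^ 2) := by rw [← pow_mul, sq]
        _ ≤ _ := pow_le_pow_left₀ h6 h1 _
    rw [div_pow (1 - qq) (1 - qq * s), le_div_iff₀ (by positivity)] at h5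
    exact h5
  unfold ZM
  rw [mul_pow qq s, div_mul_eq_mul_div, div_le_div_iff₀ (by positivity) (by positivity)]
  calc (n.factorial : ℝ) * sf n ^ 2 * qq ^ (n * (n - 1) / 2) *
        ((1 / ((n : ℝ) + 1)) ^ n * (1 / 2) ^ n) * (1 - qq * s) ^ (n ^ 2)
      = (n.factorial : ℝ) * sf n ^ 2 * qq ^ (n * (n - 1) / 2) *
        ((1 / ((n : ℝ) + 1)) ^ n * ((1 / 2) ^ n * (1 - qq * s) ^ (n ^ 2))) := by ring
    _ ≤ (n.factorial : ℝ) * sf n ^ 2 * qq ^ (n * (n - 1) / 2) *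
        (s ^ (n * (n - 1) / 2) * (1 - qq) ^ (n ^ 2)) := by
        apply mul_le_mul_of_nonneg_left _ (by positivity)
        exact mul_le_mul g1 g2 (by positivity) (by positivity)
    _ = _ := by ring

lemma exp_bound (n : ℕ) (hn : 1 ≤ n) : (1 + 1 / (n : ℝ)) ^ n ≤ 3 := by
  have hn0 : (1 : ℝ) ≤ n := by exact_mod_cast hn
  have h1 : 1 + 1 / (n : ℝ) ≤ Real.exp (1 / n) := by
    have := Real.add_one_le_exp (1 / (n : ℝ))
    linarith
  calc (1 + 1 / (n : ℝ)) ^ n ≤ (Real.exp (1 / n)) ^ n := pow_le_pow_left₀ (by positivity) h1 n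
    _ = Real.exp 1 := by
      rw [← Real.exp_nat_mul]
      congr 1
      field_simp
    _ ≤ 3 := by linarith [Real.exp_one_lt_d9]

lemma ZM_upper (n : ℕ) (hn : 1 ≤ n) :
    ZM n (qq * (1 + 1 / (n : ℝ))) ≤ ZM n qq * 9 ^ n := by
  have hn0 : (1 : ℝ) ≤ n := by exact_mod_cast hn
  have hq := qq_pos
  have hq' := qq_lt
  have hu : 0 < 1 / (n : ℝ) := by positivity
  have hu1 : 1 / (n : ℝ) ≤ 1 := by rw [div_le_one (by linarith)]; exact hn0
  have hsf := sf_pos n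
  set u : ℝ := 1 / (n : ℝ) with hudef
  have hb : (1 + u) ^ n ≤ 3 := exp_bound n hn
  have g1 : (1 + u) ^ (n * (n - 1) / 2) ≤ 3 ^ n := by
    calc (1 + u) ^ (n * (n - 1) / 2) ≤ (1 + u) ^ (n * n) :=
          pow_le_pow_right₀ (by linarith) (e_le n)
      _ = ((1 + u) ^ n) ^ n := by rw [← pow_mul]
      _ ≤ 3 ^ n := pow_le_pow_left₀ (by positivity) hb n
  have hA : 0 < 1 - qq := by linarith
  have hB : 0 < 1 - qq * (1 + u) := by nlinarith
  have g2 : (1 - qq) ^ (n ^ 2) ≤ 3 ^ n * (1 - qq * (1 + u)) ^ (n ^ 2) := by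
    have h1 : 1 - qq ≤ (1 + u) * (1 - qq * (1 + u)) := by nlinarith [mul_pos hq hu]
    calc (1 - qq) ^ (n ^ 2) ≤ ((1 + u) * (1 - qq * (1 + u))) ^ (n ^ 2) :=
          pow_le_pow_left₀ hA.le h1 _
      _ = ((1 + u) ^ n) ^ n * (1 - qq * (1 + u)) ^ (n ^ 2) := by
          rw [mul_pow, ← pow_mul, sq]
      _ ≤ _ := mul_le_mul_of_nonneg_right (pow_le_pow_left₀ (by positivity) hb n) (by positivity)
  unfold ZM
  rw [mul_pow qq (1 + u), div_mul_eq_mul_div, div_le_div_iff₀ (by positivity) (by positivity)]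
  calc (n.factorial : ℝ) * sf n ^ 2 * (qq ^ (n * (n - 1) / 2) * (1 + u) ^ (n * (n - 1) / 2)) *
        (1 - qq) ^ (n ^ 2)
      = (n.factorial : ℝ) * sf n ^ 2 * qq ^ (n * (n - 1) / 2) *
        ((1 + u) ^ (n * (n - 1) / 2) * (1 - qq) ^ (n ^ 2)) := by ring
    _ ≤ (n.factorial : ℝ) * sf n ^ 2 * qq ^ (n * (n - 1) / 2) *
        (3 ^ n * (3 ^ n * (1 - qq * (1 + u)) ^ (n ^ 2))) := by
        apply mul_le_mul_of_nonneg_left _ (by positivity)
        exact mul_le_mul g1 g2 (by positivity) (by positivity)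
    _ = _ := by
        rw [show (9 : ℝ) = 3 * 3 by norm_num, mul_pow]
        ring

lemma WZ_eq (n : ℕ) : WW n * ZM n qq ^ 2 =
    (n.factorial : ℝ) ^ 2 * 2 ^ (n ^ 2) * 4 ^ n * xx n / kp ^ n := by
  have hk := kp_pos
  rw [eq_div_iff (by positivity), WZ]

lemma fac_le (n : ℕ) : (n.factorial : ℝ) ≤ (n : ℝ) ^ n := by
  exact_mod_cast Nat.factorial_le_pow n

/-- explicit bounds -/
theorem O_upper {a : ℝ} (n : ℕ) (hn : 1 ≤ n)
    (h : (n.factorial : ℝ) * a ≤ WW n * ZM n qq ^ 2) : a ≤ 2 ^ (n ^ 2) * (18 * (n : ℝ)) ^ (5 * n) := by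
  have hn0 : (1 : ℝ) ≤ n := by exact_mod_cast hn
  have hf : (0 : ℝ) < n.factorial := by positivity
  have hk := kp_ge
  have hx := (xx_bounds n).1
  have hx0 := xx_pos n
  rw [WZ_eq] at h
  have h1 : (n.factorial : ℝ) ^ 2 * 2 ^ (n ^ 2) * 4 ^ n * xx n / kp ^ n ≤
      (n.factorial : ℝ) * ((n : ℝ) ^ n * 2 ^ (n ^ 2) * 4 ^ n * (2 * n + 1) ^ n) := by
    calc (n.factorial : ℝ) ^ 2 * 2 ^ (n ^ 2) * 4 ^ n * xx n / kp ^ n
        ≤ (n.factorial : ℝ) ^ 2 * 2 ^ (n ^ 2) * 4 ^ n * xx n := by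
          apply div_le_self (by positivity)
          exact one_le_pow₀ hk
      _ = (n.factorial : ℝ) * ((n.factorial : ℝ) * 2 ^ (n ^ 2) * 4 ^ n * xx n) := by ring
      _ ≤ _ := by
          apply mul_le_mul_of_nonneg_left _ hf.le
          apply mul_le_mul _ hx hx0.le (by positivity)
          apply mul_le_mul_of_nonneg_right _ (by positivity)
          exact mul_le_mul_of_nonneg_right (fac_le n) (by positivity)
  have h2 : a ≤ (n : ℝ) ^ n * 2 ^ (n ^ 2) * 4 ^ n * (2 * n + 1) ^ n :=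
    le_of_mul_le_mul_left (le_trans h h1) hf
  refine le_trans h2 ?_
  have h3 : (n : ℝ) ^ n * 4 ^ n * (2 * n + 1) ^ n ≤ (18 * (n : ℝ)) ^ (5 * n) := by
    calc (n : ℝ) ^ n * 4 ^ n * (2 * n + 1) ^ n ≤ (18 * (n : ℝ)) ^ n * (18 * (n : ℝ)) ^ n *
          (18 * (n : ℝ)) ^ n := by
          apply mul_le_mul _ _ (by positivity) (by positivity)
          · apply mul_le_mul _ _ (by positivity) (by positivity)
            · exact pow_le_pow_left₀ (by positivity) (by linarith) n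
            · exact pow_le_pow_left₀ (by positivity) (by linarith) n
          · exact pow_le_pow_left₀ (by positivity) (by linarith) n
      _ = (18 * (n : ℝ)) ^ (3 * n) := by rw [← pow_add, ← pow_add]; congr 1; ring
      _ ≤ _ := pow_le_pow_right₀ (by linarith) (by omega)
  calc (n : ℝ) ^ n * 2 ^ (n ^ 2) * 4 ^ n * (2 * n + 1) ^ n
      = 2 ^ (n ^ 2) * ((n : ℝ) ^ n * 4 ^ n * (2 * n + 1) ^ n) := by ring
    _ ≤ _ := mul_le_mul_of_nonneg_left h3 (by positivity)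

theorem O_lower {a : ℝ} (n : ℕ) (hn : 1 ≤ n)
    (h : WW n * (1 / 6) ^ n * (1 - n / ((n : ℝ) + 1)) ^ n * ZM n (qq * (n / ((n : ℝ) + 1))) ^ 2 ≤
      (n.factorial : ℝ) * a) : 2 ^ (n ^ 2) / (18 * (n : ℝ)) ^ (5 * n) ≤ a := by
  have hn0 : (1 : ℝ) ≤ n := by exact_mod_cast hn
  have hf : (0 : ℝ) < n.factorial := by positivity
  have hf1 : (1 : ℝ) ≤ n.factorial := by exact_mod_cast Nat.one_le_iff_ne_zero.2 (Nat.factorial_ne_zero n)
  have hk := kp_pos
  have hk' := kp_le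
  have hx := (xx_bounds n).2
  have hx0 := xx_pos n
  have hW := WW_pos n
  have hZ := ZM_pos n qq qq_pos (by linarith [qq_lt])
  have e1 : 1 - n / ((n : ℝ) + 1) = 1 / ((n : ℝ) + 1) := by field_simp; ring
  rw [e1] at h
  set v : ℝ := 1 / ((n : ℝ) + 1) with hv
  have hv0 : 0 < v := by positivity
  have h1 : WW n * ZM n qq ^ 2 * ((1 / 24) ^ n * v ^ (3 * n)) ≤ (n.factorial : ℝ) * a := by
    refine le_trans ?_ h
    have h2 : (ZM n qq * (v ^ n * (1 / 2) ^ n)) ^ 2 ≤ ZM n (qq * (n / ((n : ℝ) + 1))) ^ 2 :=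
      pow_le_pow_left₀ (by positivity) (ZM_lower n hn) 2
    have h3 : (1 / 24 : ℝ) ^ n = (1 / 6) ^ n * ((1 / 2) ^ n) ^ 2 := by
      rw [← pow_mul, mul_comm n 2, pow_mul, ← mul_pow]; norm_num
    have h4 : v ^ (3 * n) = v ^ n * (v ^ n) ^ 2 := by
      rw [← pow_mul, ← pow_add]; congr 1; ring
    calc WW n * ZM n qq ^ 2 * ((1 / 24) ^ n * v ^ (3 * n))
        = WW n * (1 / 6) ^ n * v ^ n * (ZM n qq * (v ^ n * (1 / 2) ^ n)) ^ 2 := by
          rw [h3, h4]; ring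
      _ ≤ _ := mul_le_mul_of_nonneg_left h2 (by positivity)
  rw [WZ_eq] at h1
  -- x_n lower bound
  have hx1 : 1 / (2 * (n : ℝ) + 1) ^ n ≤ xx n := by
    rw [div_le_iff₀ (by positivity)]; exact hx
  have hkn : kp ^ n ≤ 3 ^ n := pow_le_pow_left₀ hk.le hk' n
  have h5 : (n.factorial : ℝ) * (2 ^ (n ^ 2) / ((18 * (n : ℝ)) ^ (5 * n))) ≤
      (n.factorial : ℝ) ^ 2 * 2 ^ (n ^ 2) * 4 ^ n * xx n / kp ^ n *
        ((1 / 24) ^ n * v ^ (3 * n)) := by
    have g1 : (n.factorial : ℝ) * 2 ^ (n ^ 2) * 4 ^ n * (1 / (2 * (n : ℝ) + 1) ^ n) / 3 ^ n *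
        ((1 / 24) ^ n * v ^ (3 * n)) ≤ (n.factorial : ℝ) ^ 2 * 2 ^ (n ^ 2) * 4 ^ n * xx n / kp ^ n *
        ((1 / 24) ^ n * v ^ (3 * n)) := by
      apply mul_le_mul_of_nonneg_right _ (by positivity)
      apply div_le_div₀ (by positivity) _ (by positivity) hkn
      apply mul_le_mul _ hx1 (by positivity) (by positivity)
      apply mul_le_mul_of_nonneg_right _ (by positivity)
      apply mul_le_mul_of_nonneg_right _ (by positivity)
      nlinarith
    refine le_trans ?_ g1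
    have g2 : (18 : ℝ) ^ n * (2 * n + 1) ^ n * ((n : ℝ) + 1) ^ (3 * n) ≤
        (18 * (n : ℝ)) ^ (5 * n) := by
      calc (18 : ℝ) ^ n * (2 * n + 1) ^ n * ((n : ℝ) + 1) ^ (3 * n)
          ≤ (18 * (n : ℝ)) ^ n * (18 * (n : ℝ)) ^ n * (18 * (n : ℝ)) ^ (3 * n) := by
            apply mul_le_mul _ _ (by positivity) (by positivity)
            · apply mul_le_mul _ _ (by positivity) (by positivity)
              · exact pow_le_pow_left₀ (by positivity) (by linarith) n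
              · exact pow_le_pow_left₀ (by positivity) (by linarith) n
            · exact pow_le_pow_left₀ (by positivity) (by linarith) _
        _ = _ := by rw [← pow_add, ← pow_add]; congr 1; ring
    have g3 : (4 : ℝ) ^ n * (1 / (2 * (n : ℝ) + 1) ^ n) / 3 ^ n * ((1 / 24) ^ n * v ^ (3 * n)) =
        1 / ((18 : ℝ) ^ n * (2 * n + 1) ^ n * ((n : ℝ) + 1) ^ (3 * n)) := by
      have e3 : (18 : ℝ) ^ n * 4 ^ n * (1 / 24) ^ n = 3 ^ n := by
        rw [← mul_pow, ← mul_pow]; norm_num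
      have e4 : v ^ (3 * n) = 1 / ((n : ℝ) + 1) ^ (3 * n) := by rw [hv, _root_.one_div_pow]
      rw [e4, ← e3]
      field_simp
    calc (n.factorial : ℝ) * (2 ^ (n ^ 2) / ((18 * (n : ℝ)) ^ (5 * n)))
        = (n.factorial : ℝ) * 2 ^ (n ^ 2) * (1 / ((18 * (n : ℝ)) ^ (5 * n))) := by ring
      _ ≤ (n.factorial : ℝ) * 2 ^ (n ^ 2) *
          (1 / ((18 : ℝ) ^ n * (2 * n + 1) ^ n * ((n : ℝ) + 1) ^ (3 * n))) := by
          apply mul_le_mul_of_nonneg_left _ (by positivity)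
          exact one_div_le_one_div_of_le (by positivity) g2
      _ = _ := by rw [← g3]; ring
  exact le_of_mul_le_mul_left (le_trans h5 h1) hf

theorem D_lower {a b : ℝ} (n : ℕ) (hn : 1 ≤ n)
    (h : √2 * kp ^ (2 * n) * dl ^ (4 * n) / (2 * n).factorial * ((n.factorial : ℝ) * a) ≤
      (n.factorial : ℝ) * b) (ha : 2 ^ (n ^ 2) / (18 * (n : ℝ)) ^ (5 * n) ≤ a) :
    2 ^ (n ^ 2) / (18 * (n : ℝ)) ^ (8 * n) ≤ b := by
  have hn0 : (1 : ℝ) ≤ n := by exact_mod_cast hn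
  have hf : (0 : ℝ) < n.factorial := by positivity
  have hk := kp_pos
  have hd := dl_pos
  have c1 : (1 / 5 : ℝ) ^ n ≤ kp ^ (2 * n) * dl ^ (4 * n) := by
    have h1 : kp ^ (2 * n) * dl ^ (4 * n) = (8 * (dl ^ 2) ^ 2) ^ n := by
      rw [mul_pow, ← kp_sq, ← pow_mul, ← pow_mul, ← pow_mul]
      congr 2
      ring
    rw [h1]
    apply pow_le_pow_left₀ (by norm_num)
    have h2 : (0.17 : ℝ) ≤ dl ^ 2 := by rw [dl_sq]; linarith [dl_lt]
    nlinarith
  have c2 : ((2 * n).factorial : ℝ) ≤ (18 * (n : ℝ)) ^ (2 * n) := by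
    refine le_trans (fac_le (2 * n)) ?_
    push_cast
    exact pow_le_pow_left₀ (by positivity) (by linarith) _
  have c3 : 1 / (18 * (n : ℝ)) ^ (3 * n) ≤ √2 * kp ^ (2 * n) * dl ^ (4 * n) / (2 * n).factorial := by
    have h3 : (1 : ℝ) ≤ √2 := by linarith [sqrt2_gt]
    have h4 : (1 / 5 : ℝ) ^ n / (18 * (n : ℝ)) ^ (2 * n) ≤
        √2 * kp ^ (2 * n) * dl ^ (4 * n) / (2 * n).factorial := by
      apply div_le_div₀ (by positivity) _ (by positivity) c2
      have h5 : 0 < kp ^ (2 * n) * dl ^ (4 * n) := by positivity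
      rw [mul_assoc]
      nlinarith
    refine le_trans ?_ h4
    have h6 : (1 / 5 : ℝ) ^ n = 1 / 5 ^ n := by rw [_root_.one_div_pow]
    rw [h6, div_div]
    apply one_div_le_one_div_of_le (by positivity)
    calc (5 : ℝ) ^ n * (18 * (n : ℝ)) ^ (2 * n) ≤ (18 * (n : ℝ)) ^ n * (18 * (n : ℝ)) ^ (2 * n) := by
          apply mul_le_mul_of_nonneg_right _ (by positivity)
          exact pow_le_pow_left₀ (by positivity) (by linarith) _
      _ = _ := by rw [← pow_add]; congr 1; ring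
  have c4 : 1 / (18 * (n : ℝ)) ^ (3 * n) * ((n.factorial : ℝ) *
      (2 ^ (n ^ 2) / (18 * (n : ℝ)) ^ (5 * n))) ≤ (n.factorial : ℝ) * b := by
    refine le_trans ?_ h
    apply mul_le_mul c3 _ (by positivity) (by positivity)
    exact mul_le_mul_of_nonneg_left ha hf.le
  apply le_of_mul_le_mul_left _ hf
  refine le_trans (le_of_eq ?_) c4
  have h7 : (18 * (n : ℝ)) ^ (8 * n) = (18 * (n : ℝ)) ^ (3 * n) * (18 * (n : ℝ)) ^ (5 * n) := by
    rw [← pow_add]; congr 1; ring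
  rw [h7]
  field_simp

theorem D_upper {b : ℝ} (n : ℕ) (hn : 1 ≤ n)
    (h : (n.factorial : ℝ) * b ≤
      WW n * (kp ^ (2 * n) * √2 * (2 * n + 1) ^ (2 * n) / (1 - dl) ^ (2 * n + 1)) *
      ZM n (qq * (1 + 1 / (n : ℝ))) ^ 2) :
    b ≤ 2 ^ (n ^ 2) * (41472 * (n : ℝ)) ^ (4 * n) := by
  have hn0 : (1 : ℝ) ≤ n := by exact_mod_cast hn
  have hf : (0 : ℝ) < n.factorial := by positivity
  have hk := kp_pos
  have hk1 := kp_ge
  have hd := dl_pos
  have hd1 : (1 / 2 : ℝ) ≤ 1 - dl := by linarith [dl_lt]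
  have hd2 : (0 : ℝ) < 1 - dl := by linarith
  have hx := (xx_bounds n).1
  have hx0 := xx_pos n
  have hW := WW_pos n
  have hq := qq_pos
  have hq' := qq_lt
  have hZ := ZM_pos n qq hq (by linarith)
  have hn1 : 1 / (n : ℝ) ≤ 1 := by
    rw [div_le_one (by linarith)]; exact hn0
  have hZ' := ZM_pos n (qq * (1 + 1 / (n : ℝ))) (by positivity) (by nlinarith)
  have c1 : kp ^ (2 * n) * √2 * (2 * n + 1) ^ (2 * n) / (1 - dl) ^ (2 * n + 1) ≤
      8 ^ n * 2 * (2 * (n : ℝ) + 1) ^ (2 * n) * 2 ^ (2 * n + 1) := by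
    rw [pow_mul kp, kp_sq, div_le_iff₀ (by positivity)]
    have h1 : (1 : ℝ) ≤ 2 ^ (2 * n + 1) * (1 - dl) ^ (2 * n + 1) := by
      rw [← mul_pow]
      exact one_le_pow₀ (by linarith)
    have h2 : √2 ≤ 2 := by linarith [sqrt2_lt]
    calc 8 ^ n * √2 * (2 * (n : ℝ) + 1) ^ (2 * n)
        ≤ 8 ^ n * 2 * (2 * (n : ℝ) + 1) ^ (2 * n) := by
          apply mul_le_mul_of_nonneg_right _ (by positivity)
          exact mul_le_mul_of_nonneg_left h2 (by positivity)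
      _ = 8 ^ n * 2 * (2 * (n : ℝ) + 1) ^ (2 * n) * 1 := by ring
      _ ≤ 8 ^ n * 2 * (2 * (n : ℝ) + 1) ^ (2 * n) * (2 ^ (2 * n + 1) * (1 - dl) ^ (2 * n + 1)) :=
          mul_le_mul_of_nonneg_left h1 (by positivity)
      _ = _ := by ring
  have c2 : ZM n (qq * (1 + 1 / (n : ℝ))) ^ 2 ≤ ZM n qq ^ 2 * 81 ^ n := by
    calc ZM n (qq * (1 + 1 / (n : ℝ))) ^ 2 ≤ (ZM n qq * 9 ^ n) ^ 2 :=
          pow_le_pow_left₀ hZ'.le (ZM_upper n hn) 2
      _ = _ := by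
          rw [mul_pow, ← pow_mul, mul_comm n 2, pow_mul]; norm_num
  have c3 : WW n * ZM n qq ^ 2 ≤ (n.factorial : ℝ) * ((n : ℝ) ^ n * 2 ^ (n ^ 2) * 4 ^ n *
      (2 * n + 1) ^ n) := by
    rw [WZ_eq]
    calc (n.factorial : ℝ) ^ 2 * 2 ^ (n ^ 2) * 4 ^ n * xx n / kp ^ n
        ≤ (n.factorial : ℝ) ^ 2 * 2 ^ (n ^ 2) * 4 ^ n * xx n := by
          apply div_le_self (by positivity)
          exact one_le_pow₀ hk1
      _ = (n.factorial : ℝ) * ((n.factorial : ℝ) * 2 ^ (n ^ 2) * 4 ^ n * xx n) := by ring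
      _ ≤ _ := by
          apply mul_le_mul_of_nonneg_left _ hf.le
          apply mul_le_mul _ hx hx0.le (by positivity)
          apply mul_le_mul_of_nonneg_right _ (by positivity)
          exact mul_le_mul_of_nonneg_right (fac_le n) (by positivity)
  have c4 : (n.factorial : ℝ) * b ≤ (n.factorial : ℝ) * (((n : ℝ) ^ n * 2 ^ (n ^ 2) * 4 ^ n *
      (2 * n + 1) ^ n) * (8 ^ n * 2 * (2 * (n : ℝ) + 1) ^ (2 * n) * 2 ^ (2 * n + 1)) * 81 ^ n) := by
    refine le_trans h ?_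
    calc WW n * (kp ^ (2 * n) * √2 * (2 * n + 1) ^ (2 * n) / (1 - dl) ^ (2 * n + 1)) *
          ZM n (qq * (1 + 1 / (n : ℝ))) ^ 2
        ≤ WW n * (8 ^ n * 2 * (2 * (n : ℝ) + 1) ^ (2 * n) * 2 ^ (2 * n + 1)) *
          (ZM n qq ^ 2 * 81 ^ n) := by
          apply mul_le_mul _ c2 (by positivity) (by positivity)
          exact mul_le_mul_of_nonneg_left c1 hW.le
      _ = (WW n * ZM n qq ^ 2) * ((8 ^ n * 2 * (2 * (n : ℝ) + 1) ^ (2 * n) * 2 ^ (2 * n + 1)) *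
          81 ^ n) := by ring
      _ ≤ ((n.factorial : ℝ) * ((n : ℝ) ^ n * 2 ^ (n ^ 2) * 4 ^ n *
      (2 * n + 1) ^ n)) * ((8 ^ n * 2 * (2 * (n : ℝ) + 1) ^ (2 * n) * 2 ^ (2 * n + 1)) *
          81 ^ n) := mul_le_mul_of_nonneg_right c3 (by positivity)
      _ = _ := by ring
  refine le_trans (le_of_mul_le_mul_left c4 hf) ?_
  have e1 : ((n : ℝ) ^ n * 2 ^ (n ^ 2) * 4 ^ n *
      (2 * n + 1) ^ n) * (8 ^ n * 2 * (2 * (n : ℝ) + 1) ^ (2 * n) * 2 ^ (2 * n + 1)) * 81 ^ n =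
      2 ^ (n ^ 2) * ((4 * 10368 ^ n) * (n : ℝ) ^ n * ((2 * (n : ℝ) + 1) ^ n *
        (2 * (n : ℝ) + 1) ^ (2 * n))) := by
    have : (10368 : ℝ) ^ n = 4 ^ n * 8 ^ n * 81 ^ n * 4 ^ n := by
      rw [← mul_pow, ← mul_pow, ← mul_pow]; norm_num
    have h2n : (2 : ℝ) ^ (2 * n + 1) = 4 ^ n * 2 := by
      rw [pow_succ, pow_mul]; norm_num
    rw [this, h2n]
    ring
  rw [e1]
  apply mul_le_mul_of_nonneg_left _ (by positivity)
  have h4 : (4 : ℝ) * 10368 ^ n ≤ 41472 ^ n := by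
    rw [show (41472 : ℝ) = 4 * 10368 by norm_num, mul_pow]
    apply mul_le_mul_of_nonneg_right _ (by positivity)
    calc (4 : ℝ) = 4 ^ 1 := by norm_num
      _ ≤ 4 ^ n := pow_le_pow_right₀ (by norm_num) hn
  calc (4 * 10368 ^ n) * (n : ℝ) ^ n * ((2 * (n : ℝ) + 1) ^ n * (2 * (n : ℝ) + 1) ^ (2 * n))
      ≤ 41472 ^ n * (n : ℝ) ^ n * ((41472 * (n : ℝ)) ^ n * (41472 * (n : ℝ)) ^ (2 * n)) := by
        apply mul_le_mul _ _ (by positivity) (by positivity)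
        · exact mul_le_mul_of_nonneg_right h4 (by positivity)
        · apply mul_le_mul _ _ (by positivity) (by positivity)
          · exact pow_le_pow_left₀ (by positivity) (by linarith) _
          · exact pow_le_pow_left₀ (by positivity) (by linarith) _
    _ = _ := by
        rw [← mul_pow, ← pow_add, ← pow_add]
        congr 1
        ring

lemma big_pow (n a : ℕ) (hn : 1 ≤ n) (ha : a ≤ 41472) (c : ℝ) (hc : 1 ≤ c) (hc1 : c ≤ 41472) :
    (c * (n : ℝ)) ^ (a * n) ≤ ((41472 : ℝ) * n) ^ ((41472 : ℝ) * n) := by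
  have hn0 : (1 : ℝ) ≤ n := by exact_mod_cast hn
  have h1 : (c * (n : ℝ)) ^ (a * n) ≤ (41472 * (n : ℝ)) ^ (a * n) :=
    pow_le_pow_left₀ (by positivity) (mul_le_mul_of_nonneg_right hc1 (by linarith)) _
  refine le_trans h1 ?_
  rw [← Real.rpow_natCast]
  apply Real.rpow_le_rpow_of_exponent_le (by nlinarith)
  push_cast
  have : (a : ℝ) ≤ 41472 := by exact_mod_cast ha
  nlinarith

theorem s_boundO (hPF : S_PF) (hSym : S_sym) (hK : S_K) (hTO : S_TO) (hV : S_V) (hC : S_cmp)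
    (hM : S_M) : S_boundO := by
  refine ⟨41472, by norm_num, fun n hn => ?_⟩
  have hn0 : (1 : ℝ) ≤ n := by exact_mod_cast hn
  have ht := tendO hPF hSym hK hTO n
  have hu := O_upper n hn (upper_O hV hC hM n _ ht)
  have hl := O_lower n hn (lower_O hV hC hM n _ ht (n / ((n : ℝ) + 1)) (by positivity)
    (by rw [div_lt_one (by linarith)]; linarith))
  have hb := big_pow n 5 hn (by norm_num) 18 (by norm_num) (by norm_num)
  constructor
  · refine le_trans ?_ hl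
    apply div_le_div_of_nonneg_left (by positivity) (by positivity) hb
  · exact le_trans hu (mul_le_mul_of_nonneg_left hb (by positivity))

theorem s_boundD (hPF : S_PF) (hSym : S_sym) (hK : S_K) (hTO : S_TO) (hV : S_V) (hC : S_cmp)
    (hM : S_M) (hPFD : S_PFD) (hSymD : S_symD) (hF : S_F) (hTD : S_TD) (hVD : S_VD) :
    S_boundD := by
  refine ⟨41472, by norm_num, fun n hn => ?_⟩
  have hn0 : (1 : ℝ) ≤ n := by exact_mod_cast hn
  have ht := tendO hPF hSym hK hTO n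
  have htD := tendD hPFD hSymD hK hF hTD n
  have hl := O_lower n hn (lower_O hV hC hM n _ ht (n / ((n : ℝ) + 1)) (by positivity)
    (by rw [div_lt_one (by linarith)]; linarith))
  have hlD := D_lower n hn (lower_D hV hVD hC n _ _ ht htD) hl
  have huD := D_upper n hn (upper_D hVD hC hM n hn _ htD)
  have hb := big_pow n 8 hn (by norm_num) 18 (by norm_num) (by norm_num)
  have hb' := big_pow n 4 hn (by norm_num) 41472 (by norm_num) (by norm_num)
  constructor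
  · refine le_trans ?_ hlD
    apply div_le_div_of_nonneg_left (by positivity) (by positivity) hb
  · exact le_trans huD (mul_le_mul_of_nonneg_left hb' (by positivity))

end Pool.Agent.R161.AzB
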