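import Pool.Agent.R161.Az.Defs

/-! MP_315d97_co, Part T1: from symmetric tilings of the Aztec diamond to half tilings. -/

set_option autoImplicit false

namespace Pool.Agent.R372.Az

open Pool.Agent.R161.Az

open Finset

/-! ### Geometry -/

theorem abs_bound (a : ℤ) :
    (∃ x : ℝ, (a : ℝ) ≤ x ∧ x ≤ a + 1 ∧ |x| = ((max a (-1 - a) + 1 : ℤ) : ℝ)) ∧
    ∀ x : ℝ, (a : ℝ) ≤ x → x ≤ a + 1 → |x| ≤ ((max a (-1 - a) + 1 : ℤ) : ℝ) := by
  rcases le_or_gt 0 a with h | h
  · have hm : max a (-1 - a) = a := max_eq_left (by omega)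
    have ha : (0 : ℝ) ≤ (a : ℝ) := by exact_mod_cast h
    rw [hm]
    push_cast
    refine ⟨⟨a + 1, by linarith, le_rfl, abs_of_nonneg (by linarith)⟩, fun x h1 h2 => ?_⟩
    rw [abs_of_nonneg (by linarith)]
    exact h2
  · have hm : max a (-1 - a) = -1 - a := max_eq_right (by omega)
    have ha : (a : ℝ) ≤ -1 := by exact_mod_cast (show a ≤ -1 by omega)
    rw [hm]
    push_cast
    refine ⟨⟨a, le_rfl, by linarith, ?_⟩, fun x h1 h2 => ?_⟩
    · rw [abs_of_nonpos (by linarith)]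
      ring
    · rw [abs_of_nonpos (by linarith)]
      linarith

theorem inAD_iff (m : ℕ) (s : ℤ × ℤ) :
    InAD m s ↔ max s.1 (-1 - s.1) + max s.2 (-1 - s.2) + 1 ≤ (m : ℤ) := by
  obtain ⟨⟨x, hx1, hx2, hx3⟩, hx4⟩ := abs_bound s.1
  obtain ⟨⟨y, hy1, hy2, hy3⟩, hy4⟩ := abs_bound s.2
  constructor
  · intro h
    have h1 := h x y hx1 hx2 hy1 hy2
    rw [hx3, hy3] at h1
    have h2 : (max s.1 (-1 - s.1) + 1) + (max s.2 (-1 - s.2) + 1) ≤ (m : ℤ) + 1 := by
      exact_mod_cast h1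
    omega
  · intro h x' y' h1 h2 h3 h4
    have h5 := hx4 x' h1 h2
    have h6 := hy4 y' h3 h4
    have h7 : (((max s.1 (-1 - s.1) + 1) + (max s.2 (-1 - s.2) + 1) : ℤ) : ℝ)
        ≤ ((m : ℤ) : ℝ) + 1 := by
      exact_mod_cast (show (max s.1 (-1 - s.1) + 1) + (max s.2 (-1 - s.2) + 1) ≤ (m : ℤ) + 1 by
        omega)
    push_cast at h5 h6 h7 ⊢
    linarith

theorem rho_rho (s : ℤ × ℤ) : rho (rho s) = s := by
  unfold rho
  ext
  · show -1 - (-1 - s.1) = s.1
    ring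
  · rfl

theorem inAD_rho (m : ℕ) (s : ℤ × ℤ) : InAD m (rho s) ↔ InAD m s := by
  rw [inAD_iff, inAD_iff]
  show max (-1 - s.1) (-1 - (-1 - s.1)) + max s.2 (-1 - s.2) + 1 ≤ (m : ℤ) ↔ _
  rw [show -1 - (-1 - s.1) = s.1 by ring, max_comm (-1 - s.1) s.1]

theorem adj_iff (s t : ℤ × ℤ) : Adj s t ↔
    (s.1 = t.1 ∧ (s.2 = t.2 + 1 ∨ t.2 = s.2 + 1)) ∨ (s.2 = t.2 ∧ (s.1 = t.1 + 1 ∨ t.1 = s.1 + 1)) := by
  unfold Adj
  rcases abs_cases (s.1 - t.1) with ⟨h1, h1'⟩ | ⟨h1, h1'⟩ <;>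
    rcases abs_cases (s.2 - t.2) with ⟨h2, h2'⟩ | ⟨h2, h2'⟩ <;> rw [h1, h2] <;> omega

theorem adj_rho (s t : ℤ × ℤ) : Adj (rho s) (rho t) ↔ Adj s t := by
  rw [adj_iff, adj_iff]
  show ((-1 - s.1 = -1 - t.1 ∧ _) ∨ (_ ∧ (-1 - s.1 = -1 - t.1 + 1 ∨ -1 - t.1 = -1 - s.1 + 1))) ↔ _
  show ((-1 - s.1 = -1 - t.1 ∧ (s.2 = t.2 + 1 ∨ t.2 = s.2 + 1)) ∨
    (s.2 = t.2 ∧ (-1 - s.1 = -1 - t.1 + 1 ∨ -1 - t.1 = -1 - s.1 + 1))) ↔ _
  omega

/-- half diamond coordinates to squares -/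
def E (m : ℕ) (a : ℕ × ℕ) : ℤ × ℤ := ((a.1 : ℤ), (a.2 : ℤ) - ((m : ℤ) - a.1))

/-- and back -/
def Ei (m : ℕ) (s : ℤ × ℤ) : ℕ × ℕ := (s.1.toNat, (s.2 + m - s.1).toNat)

theorem Ei_E (m : ℕ) (a : ℕ × ℕ) : Ei m (E m a) = a := by
  unfold Ei E
  ext
  · simp
  · show ((a.2 : ℤ) - ((m : ℤ) - a.1) + m - a.1).toNat = a.2
    rw [show (a.2 : ℤ) - ((m : ℤ) - a.1) + m - a.1 = (a.2 : ℤ) by ring]
    simp

theorem E_inj (m : ℕ) : Function.Injective (E m) := fun a b h => by
  rw [← Ei_E m a, h, Ei_E]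

theorem E_adj (m : ℕ) (a b : ℕ × ℕ) : Adj (E m a) (E m b) ↔ HAdj a b := by
  rw [adj_iff]
  unfold E HAdj
  show (((a.1 : ℤ) = b.1 ∧ ((a.2 : ℤ) - ((m : ℤ) - a.1) = (b.2 : ℤ) - ((m : ℤ) - b.1) + 1 ∨
    (b.2 : ℤ) - ((m : ℤ) - b.1) = (a.2 : ℤ) - ((m : ℤ) - a.1) + 1)) ∨
    ((a.2 : ℤ) - ((m : ℤ) - a.1) = (b.2 : ℤ) - ((m : ℤ) - b.1) ∧
      ((a.1 : ℤ) = b.1 + 1 ∨ (b.1 : ℤ) = a.1 + 1))) ↔ _
  omega

/-- the region of the half diamond -/
def Reg (m : ℕ) (a : ℕ × ℕ) : Prop := a.1 < m ∧ a.2 < 2 * (m - a.1)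

theorem inAD_E (m : ℕ) (a : ℕ × ℕ) : InAD m (E m a) ↔ Reg m a := by
  rw [inAD_iff]
  unfold E Reg
  show max (a.1 : ℤ) (-1 - (a.1 : ℤ)) + max ((a.2 : ℤ) - ((m : ℤ) - a.1))
    (-1 - ((a.2 : ℤ) - ((m : ℤ) - a.1))) + 1 ≤ (m : ℤ) ↔ _
  omega

theorem E_Ei (m : ℕ) (s : ℤ × ℤ) (h : InAD m s) (h0 : 0 ≤ s.1) : E m (Ei m s) = s := by
  rw [inAD_iff] at h
  unfold E Ei
  have h1 : ((s.1.toNat : ℕ) : ℤ) = s.1 := Int.toNat_of_nonneg h0
  have h2 : (((s.2 + m - s.1).toNat : ℕ) : ℤ) = s.2 + m - s.1 := Int.toNat_of_nonneg (by omega)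
  ext
  · exact h1
  · show (((s.2 + m - s.1).toNat : ℕ) : ℤ) - ((m : ℤ) - ((s.1.toNat : ℕ) : ℤ)) = s.2
    rw [h1, h2]
    ring

theorem Ei_reg (m : ℕ) (s : ℤ × ℤ) (h : InAD m s) (h0 : 0 ≤ s.1) : Reg m (Ei m s) := by
  rw [← inAD_E, E_Ei m s h h0]
  exact h

theorem mem_Half {m : ℕ} {T : Finset ℕ} {a : ℕ × ℕ} : a ∈ Half m T ↔
    Reg m a ∧ (a.1 = 0 → ((a.2 % 2 = 0 ∧ a.2 ∉ T) ∨ (a.2 % 2 = 1 ∧ a.2 ∈ T))) := by
  unfold Half Reg
  rw [Finset.mem_filter, Finset.mem_product, Finset.mem_range, Finset.mem_range]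
  constructor
  · rintro ⟨⟨h1, h2⟩, h3, h4⟩
    exact ⟨⟨h1, h3⟩, h4⟩
  · rintro ⟨⟨h1, h3⟩, h4⟩
    exact ⟨⟨h1, by omega⟩, h3, h4⟩

/-- the row `r` of column `0` is a dent -/
def dent (m : ℕ) (f : ℤ × ℤ → ℤ × ℤ) (r : ℕ) : Prop :=
  f (0, (r : ℤ) - m) = (-1, (r : ℤ) - m)

open Classical in
noncomputable def tau (m : ℕ) (f : ℤ × ℤ → ℤ × ℤ) : Finset ℕ :=
  (range (2 * m)).filter fun r => (r % 2 = 0 ∧ dent m f r) ∨ (r % 2 = 1 ∧ ¬ dent m f r)

theorem mem_tau {m : ℕ} {f : ℤ × ℤ → ℤ × ℤ} {r : ℕ} : r ∈ tau m f ↔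
    r < 2 * m ∧ ((r % 2 = 0 ∧ dent m f r) ∨ (r % 2 = 1 ∧ ¬ dent m f r)) := by
  classical
  unfold tau
  rw [Finset.mem_filter, Finset.mem_range]

theorem mem_Half_tau {m : ℕ} {f : ℤ × ℤ → ℤ × ℤ} {a : ℕ × ℕ} (ha : Reg m a) :
    a ∈ Half m (tau m f) ↔ (a.1 = 0 → ¬ dent m f a.2) := by
  rw [mem_Half, mem_tau]
  have h2 : a.2 < 2 * m := by
    have := ha.2
    omega
  rcases Nat.mod_two_eq_zero_or_one a.2 with h | h
  · by_cases hd : dent m f a.2
    · simp [ha, h, hd, h2]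
    · simp [ha, h, hd]
  · by_cases hd : dent m f a.2
    · simp [ha, h, hd]
    · simp [ha, h, hd, h2]

/-- symmetric tilings with given dents -/
def Sm (m : ℕ) (T : Finset ℕ) : Set (ℤ × ℤ → ℤ × ℤ) :=
  {f | IsTiling m f ∧ IsSym f ∧ tau m f = T}

open Classical in
/-- from a matching of the half diamond to the right half of the tiling -/
noncomputable def Rf (m : ℕ) (T : Finset ℕ) (g : ℕ × ℕ → ℕ × ℕ) (s : ℤ × ℤ) : ℤ × ℤ :=
  if Ei m s ∈ Half m T then E m (g (Ei m s)) else (-1, s.2)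

open Classical in
noncomputable def Psi (m : ℕ) (T : Finset ℕ) (g : ℕ × ℕ → ℕ × ℕ) (s : ℤ × ℤ) : ℤ × ℤ :=
  if InAD m s then (if 0 ≤ s.1 then Rf m T g s else rho (Rf m T g (rho s))) else s

theorem Psi_sym (m : ℕ) (T : Finset ℕ) (g : ℕ × ℕ → ℕ × ℕ) : IsSym (Psi m T g) := by
  intro s
  unfold Psi
  rw [inAD_rho]
  by_cases h : InAD m s
  · rw [if_pos h, if_pos h]
    by_cases h0 : 0 ≤ s.1
    · have h1 : ¬ 0 ≤ (rho s).1 := by
        show ¬ 0 ≤ -1 - s.1
        omega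
      rw [if_neg h1, if_pos h0, rho_rho]
    · have h1 : 0 ≤ (rho s).1 := by
        show 0 ≤ -1 - s.1
        omega
      rw [if_pos h1, if_neg h0, rho_rho]
  · rw [if_neg h, if_neg h]

theorem Psi_right {m : ℕ} {T : Finset ℕ} {g : ℕ × ℕ → ℕ × ℕ} {a : ℕ × ℕ} (ha : Reg m a) :
    Psi m T g (E m a) = if a ∈ Half m T then E m (g a) else (-1, (E m a).2) := by
  unfold Psi Rf
  have h0 : 0 ≤ (E m a).1 := Int.natCast_nonneg _
  rw [if_pos ((inAD_E m a).mpr ha), if_pos h0, Ei_E]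

theorem right_half {m : ℕ} {T : Finset ℕ} {g : ℕ × ℕ → ℕ × ℕ} (hg : g ∈ Mat HAdj (Half m T))
    (a : ℕ × ℕ) (ha : Reg m a) :
    InAD m (Psi m T g (E m a)) ∧ Adj (E m a) (Psi m T g (E m a)) ∧
      Psi m T g (Psi m T g (E m a)) = E m a := by
  rw [Psi_right ha]
  by_cases hh : a ∈ Half m T
  · rw [if_pos hh]
    obtain ⟨h1, h2, h3⟩ := hg.1 a hh
    have hr := (mem_Half.mp h1).1
    refine ⟨(inAD_E m _).mpr hr, (E_adj m _ _).mpr h2, ?_⟩
    rw [Psi_right hr, if_pos h1, h3]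
  · rw [if_neg hh]
    have ha0 : a.1 = 0 := by
      by_contra h
      exact hh (mem_Half.mpr ⟨ha, fun h' => absurd h' h⟩)
    have hE : E m a = (0, (E m a).2) := by
      ext
      · show (a.1 : ℤ) = 0
        rw [ha0]
        rfl
      · rfl
    have hrho : ((-1, (E m a).2) : ℤ × ℤ) = rho (E m a) := by
      rw [hE]
      rfl
    refine ⟨?_, ?_, ?_⟩
    · rw [hrho, inAD_rho, inAD_E]
      exact ha
    · rw [adj_iff]
      right
      refine ⟨rfl, Or.inl ?_⟩
      show (a.1 : ℤ) = -1 + 1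
      rw [ha0]
      rfl
    · rw [hrho, Psi_sym m T g (E m a), Psi_right ha, if_neg hh, hrho, rho_rho]

theorem Psi_mem {m : ℕ} {T : Finset ℕ} (hT : T ⊆ range (2 * m)) {g : ℕ × ℕ → ℕ × ℕ}
    (hg : g ∈ Mat HAdj (Half m T)) : Psi m T g ∈ Sm m T := by
  have hsym := Psi_sym m T g
  refine ⟨⟨?_, ?_⟩, hsym, ?_⟩
  · intro s hs
    by_cases h0 : 0 ≤ s.1
    · have := right_half hg (Ei m s) (Ei_reg m s hs h0)
      rwa [E_Ei m s hs h0] at this
    · have h1 : 0 ≤ (rho s).1 := by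
        show 0 ≤ -1 - s.1
        omega
      have hs' := (inAD_rho m s).mpr hs
      obtain ⟨a1, a2, a3⟩ := right_half hg (Ei m (rho s)) (Ei_reg m _ hs' h1)
      rw [E_Ei m _ hs' h1, hsym s] at a1 a2 a3
      rw [hsym (Psi m T g s)] at a3
      refine ⟨(inAD_rho m _).mp a1, (adj_rho _ _).mp a2, ?_⟩
      rw [← rho_rho (Psi m T g (Psi m T g s)), a3, rho_rho]
  · intro s hs
    unfold Psi
    rw [if_neg hs]
  · ext r
    rw [mem_tau]
    by_cases hr : r < 2 * m
    · have hreg : Reg m (0, r) := ⟨by show 0 < m; omega, by show r < 2 * (m - 0); omega⟩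
      have hE : E m (0, r) = (0, (r : ℤ) - m) := by
        unfold E
        ext
        · rfl
        · show (r : ℤ) - ((m : ℤ) - ((0 : ℕ) : ℤ)) = (r : ℤ) - m
          push_cast
          ring
      have hd : dent m (Psi m T g) r ↔ (0, r) ∉ Half m T := by
        unfold dent
        rw [← hE, Psi_right hreg]
        constructor
        · intro h hh
          rw [if_pos hh] at h
          have := congrArg Prod.fst h
          have h2 : ((g (0, r)).1 : ℤ) = -1 := this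
          omega
        · intro hh
          rw [if_neg hh, hE]
      rw [hd, mem_Half]
      show _ ∧ (r % 2 = 0 ∧ ¬ (_ ∧ ((0 : ℕ) = 0 → (r % 2 = 0 ∧ r ∉ T ∨ r % 2 = 1 ∧ r ∈ T))) ∨
        r % 2 = 1 ∧ ¬ ¬ (_ ∧ ((0 : ℕ) = 0 → (r % 2 = 0 ∧ r ∉ T ∨ r % 2 = 1 ∧ r ∈ T)))) ↔ _
      rcases Nat.mod_two_eq_zero_or_one r with h | h
      · simp [h, hr, hreg]
      · simp [h, hr, hreg]
    · constructor
      · intro h
        exact absurd h.1 hr
      · intro h
        exact absurd (Finset.mem_range.mp (hT h)) hr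

theorem Psi_injOn {m : ℕ} {T : Finset ℕ} : Set.InjOn (Psi m T) (Mat HAdj (Half m T)) := by
  intro g hg g' hg' h
  funext a
  by_cases ha : a ∈ Half m T
  · have hr := (mem_Half.mp ha).1
    have h1 := congrFun h (E m a)
    rw [Psi_right hr, Psi_right hr, if_pos ha, if_pos ha] at h1
    exact E_inj m h1
  · rw [hg.2 a ha, hg'.2 a ha]

theorem Sm_eq {m : ℕ} {T : Finset ℕ} (hT : T ⊆ range (2 * m)) :
    Sm m T = Psi m T '' Mat HAdj (Half m T) := by
  classical
  apply Set.Subset.antisymm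
  · rintro f ⟨⟨hf1, hf2⟩, hsym, htau⟩
    -- partners in the right half
    have hdent : ∀ a : ℕ × ℕ, a.1 = 0 → (dent m f a.2 ↔ f (E m a) = (-1, (E m a).2)) := by
      intro a ha0
      have hE : E m a = (0, (a.2 : ℤ) - m) := by
        unfold E
        rw [ha0]
        ext
        · rfl
        · show (a.2 : ℤ) - ((m : ℤ) - ((0 : ℕ) : ℤ)) = (a.2 : ℤ) - m
          push_cast
          ring
      unfold dent
      rw [hE]
    have hpart : ∀ a, a ∈ Half m T → 0 ≤ (f (E m a)).1 ∧ Ei m (f (E m a)) ∈ Half m T := by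
      intro a ha
      have hr := (mem_Half.mp ha).1
      have hAD := (inAD_E m a).mpr hr
      obtain ⟨b1, b2, b3⟩ := hf1 _ hAD
      rw [← htau, mem_Half_tau hr] at ha
      have h0 : 0 ≤ (f (E m a)).1 := by
        by_contra hneg
        rw [adj_iff] at b2
        have e1 : (E m a).1 = (a.1 : ℤ) := rfl
        rw [e1] at b2
        have ha0 : a.1 = 0 := by omega
        apply ha ha0
        rw [hdent a ha0]
        ext
        · show (f (E m a)).1 = -1
          omega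
        · show (f (E m a)).2 = (E m a).2
          omega
      refine ⟨h0, ?_⟩
      have hr' := Ei_reg m _ b1 h0
      rw [← htau, mem_Half_tau hr']
      intro hz hd
      rw [hdent _ hz, E_Ei m _ b1 h0, b3] at hd
      have := congrArg Prod.fst hd
      have e1 : (E m a).1 = (a.1 : ℤ) := rfl
      rw [e1] at this
      simp only at this
      omega
    refine ⟨fun a => if a ∈ Half m T then Ei m (f (E m a)) else a, ⟨?_, ?_⟩, ?_⟩
    · intro a ha
      obtain ⟨h0, h1⟩ := hpart a ha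
      have hr := (mem_Half.mp ha).1
      obtain ⟨b1, b2, b3⟩ := hf1 _ ((inAD_E m a).mpr hr)
      simp only [if_pos ha]
      refine ⟨h1, ?_, ?_⟩
      · rw [← E_adj m, E_Ei m _ b1 h0]
        exact b2
      · rw [if_pos h1, E_Ei m _ b1 h0, b3, Ei_E]
    · intro a ha
      simp only [if_neg ha]
    · have hright : ∀ s, InAD m s → 0 ≤ s.1 →
          Psi m T (fun a => if a ∈ Half m T then Ei m (f (E m a)) else a) s = f s := by
        intro s hs h0
        have hr := Ei_reg m s hs h0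
        rw [← E_Ei m s hs h0, Psi_right hr]
        by_cases hh : Ei m s ∈ Half m T
        · rw [if_pos hh, if_pos hh]
          exact E_Ei m _ (hf1 _ ((inAD_E m _).mpr hr)).1 (hpart _ hh).1
        · rw [if_neg hh]
          rw [← htau, mem_Half_tau hr] at hh
          push Not at hh
          exact ((hdent _ hh.1).mp hh.2).symm
      funext s
      by_cases hs : InAD m s
      · by_cases h0 : 0 ≤ s.1
        · exact hright s hs h0
        · have h1 : 0 ≤ (rho s).1 := by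
            show 0 ≤ -1 - s.1
            omega
          have := hright (rho s) ((inAD_rho m s).mpr hs) h1
          rw [Psi_sym, hsym s] at this
          rw [← rho_rho (Psi m T _ s), this, rho_rho]
      · rw [hf2 s hs]
        unfold Psi
        rw [if_neg hs]
  · rintro _ ⟨g, hg, rfl⟩
    exact Psi_mem hT hg

theorem Mat_finite (h : S_mc) (U : Finset (ℕ × ℕ)) : (Mat HAdj U).Finite := by
  have hsymm : ∀ x y : ℕ × ℕ, HAdj x y → HAdj y x := by
    intro x y hxy
    unfold HAdj at *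
    omega
  have hirr : ∀ x : ℕ × ℕ, ¬ HAdj x x := by
    intro x hx
    unfold HAdj at hx
    omega
  obtain ⟨h1, h2⟩ := h (ℕ × ℕ) HAdj hsymm hirr
  rcases U.eq_empty_or_nonempty with rfl | ⟨v, hv⟩
  · apply Set.finite_of_ncard_ne_zero
    unfold mc at h1
    rw [h1]
    norm_num
  · exact (h2 U v hv).1

theorem Sm_card (h : S_mc) {m : ℕ} {T : Finset ℕ} (hT : T ⊆ range (2 * m)) :
    (Sm m T).Finite ∧ (Sm m T).ncard = mc HAdj (Half m T) := by
  rw [Sm_eq hT]
  exact ⟨(Mat_finite h _).image _, Psi_injOn.ncard_image⟩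

/-! ### The diagonal cells -/

theorem cellVal_zero {m : ℕ} {f : ℤ × ℤ → ℤ × ℤ} (hf : IsTiling m f) (hs : IsSym f) {k : ℕ}
    (hk : k < m) : cellVal m f k = 0 ↔ (2 * k ∈ tau m f ↔ 2 * k + 1 ∈ tau m f) := by
  classical
  have e0 : 2 * k ∈ tau m f ↔ dent m f (2 * k) := by
    rw [mem_tau]
    constructor
    · rintro ⟨-, ⟨-, h⟩ | ⟨h, -⟩⟩
      · exact h
      · omega
    · intro h
      exact ⟨by omega, Or.inl ⟨by omega, h⟩⟩
  have e1 : 2 * k + 1 ∈ tau m f ↔ ¬ dent m f (2 * k + 1) := by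
    rw [mem_tau]
    constructor
    · rintro ⟨-, ⟨h, -⟩ | ⟨-, h⟩⟩
      · omega
      · exact h
    · intro h
      exact ⟨by omega, Or.inr ⟨by omega, h⟩⟩
  rw [e0, e1]
  obtain ⟨y, hy⟩ : ∃ y : ℤ, y = 2 * (k : ℤ) - m := ⟨_, rfl⟩
  have d0 : dent m f (2 * k) ↔ f (0, y) = (-1, y) := by
    unfold dent
    push_cast
    rw [← hy]
  have d1 : dent m f (2 * k + 1) ↔ f (0, y + 1) = (-1, y + 1) := by
    unfold dent
    push_cast
    rw [show 2 * (k : ℤ) + 1 - m = y + 1 by rw [hy]; ring]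
  have hcell : cell m k = {((-1 : ℤ), y), (0, y), (-1, y + 1), (0, y + 1)} := by
    unfold cell
    rw [← hy]
  have i0 : InAD m (0, y) := by
    rw [inAD_iff]
    show max (0 : ℤ) (-1 - 0) + max y (-1 - y) + 1 ≤ (m : ℤ)
    omega
  have i1 : InAD m (0, y + 1) := by
    rw [inAD_iff]
    show max (0 : ℤ) (-1 - 0) + max (y + 1) (-1 - (y + 1)) + 1 ≤ (m : ℤ)
    omega
  obtain ⟨a1, a2, a3⟩ := hf.1 _ i0
  obtain ⟨b1, b2, b3⟩ := hf.1 _ i1
  have l0 : f (-1, y) = rho (f (0, y)) := hs (0, y)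
  have l1 : f (-1, y + 1) = rho (f (0, y + 1)) := hs (0, y + 1)
  have hmem : ∀ s, s ∈ cell m k ↔ (s.1 = -1 ∨ s.1 = 0) ∧ (s.2 = y ∨ s.2 = y + 1) := by
    intro s
    rw [hcell]
    simp only [Finset.mem_insert, Finset.mem_singleton, Prod.ext_iff]
    tauto
  have hrho : ∀ s, rho s ∈ cell m k ↔ s ∈ cell m k := by
    intro s
    rw [hmem, hmem]
    show ((-1 - s.1 = -1 ∨ -1 - s.1 = 0) ∧ (s.2 = y ∨ s.2 = y + 1)) ↔ _
    omega
  have hcard : ((cell m k).filter (fun s => f s ∈ cell m k)).card =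
      2 * ((if f (0, y) ∈ cell m k then 1 else 0) + (if f (0, y + 1) ∈ cell m k then 1 else 0)) := by
    rw [Finset.card_filter]
    conv_lhs => rw [hcell]
    rw [Finset.sum_insert (by simp), Finset.sum_insert (by simp), Finset.sum_insert (by simp),
      Finset.sum_singleton, ← hcell, l0, l1]
    simp only [hrho]
    ring
  have hval : cellVal m f k = ((if f (0, y) ∈ cell m k then 1 else 0) +
      (if f (0, y + 1) ∈ cell m k then 1 else 0) : ℤ) - 1 := by
    unfold cellVal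
    rw [hcard, Nat.mul_div_cancel_left _ (by norm_num)]
    push_cast
    rfl
  have p0 : f (0, y) ∈ cell m k ↔ (f (0, y) = (-1, y) ∨ f (0, y) = (0, y + 1)) := by
    rw [hmem]
    rw [adj_iff] at a2
    simp only [Prod.ext_iff] at a2 ⊢
    omega
  have p1 : f (0, y + 1) ∈ cell m k ↔ (f (0, y + 1) = (-1, y + 1) ∨ f (0, y + 1) = (0, y)) := by
    rw [hmem]
    rw [adj_iff] at b2
    simp only [Prod.ext_iff] at b2 ⊢
    omega
  have hsw : f (0, y) = (0, y + 1) ↔ f (0, y + 1) = (0, y) := by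
    constructor
    · intro h
      rw [← h, a3]
    · intro h
      rw [← h, b3]
  rw [hval, d0, d1]
  by_cases c0 : f (0, y) = (-1, y)
  · have n0 : ¬ f (0, y + 1) = (0, y) := by
      rw [← hsw, c0]
      intro h
      have := congrArg Prod.fst h
      norm_num at this
    rw [if_pos (p0.mpr (Or.inl c0))]
    by_cases c1 : f (0, y + 1) = (-1, y + 1)
    · rw [if_pos (p1.mpr (Or.inl c1))]
      simp [c0, c1]
    · rw [if_neg (fun h => by rcases p1.mp h with h | h; exacts [c1 h, n0 h])]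
      simp [c0, c1]
  · by_cases c1 : f (0, y + 1) = (-1, y + 1)
    · have n1 : ¬ f (0, y) = (0, y + 1) := by
        rw [hsw, c1]
        intro h
        have := congrArg Prod.fst h
        norm_num at this
      rw [if_pos (p1.mpr (Or.inl c1)), if_neg (fun h => by rcases p0.mp h with h | h; exacts [c0 h, n1 h])]
      simp [c0, c1]
    · by_cases c2 : f (0, y) = (0, y + 1)
      · rw [if_pos (p0.mpr (Or.inr c2)), if_pos (p1.mpr (Or.inr (hsw.mp c2)))]
        simp [c0, c1]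
      · rw [if_neg (fun h => by rcases p0.mp h with h | h; exacts [c0 h, c2 h]),
          if_neg (fun h => by rcases p1.mp h with h | h; exacts [c1 h, c2 (hsw.mpr h)])]
        simp [c0, c1]

/-! ### The number of dents -/

theorem even_card (m : ℕ) : ((range (2 * m)).filter (fun r => r % 2 = 0)).card = m := by
  have h : (range (2 * m)).filter (fun r => r % 2 = 0) = (range m).image (fun k => 2 * k) := by
    ext r
    rw [Finset.mem_filter, Finset.mem_image, Finset.mem_range]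
    constructor
    · rintro ⟨h1, h2⟩
      exact ⟨r / 2, Finset.mem_range.mpr (by omega), by omega⟩
    · rintro ⟨k, hk, rfl⟩
      rw [Finset.mem_range] at hk
      exact ⟨by omega, by omega⟩
  rw [h, Finset.card_image_of_injective _ (fun a b hab => by
    have : 2 * a = 2 * b := hab
    omega), Finset.card_range]

theorem card_T {m : ℕ} {T : Finset ℕ} (hT : T ⊆ range (2 * m)) {g : ℕ × ℕ → ℕ × ℕ}
    (hg : g ∈ Mat HAdj (Half m T)) : T.card = m := by
  classical
  -- row parity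
  have hpar : ∀ a ∈ Half m T, (g a).2 % 2 ≠ a.2 % 2 := by
    intro a ha
    obtain ⟨-, h2, -⟩ := hg.1 a ha
    unfold HAdj at h2
    omega
  have h1 : ((Half m T).filter (fun a => a.2 % 2 = 0)).card =
      ((Half m T).filter (fun a => a.2 % 2 = 1)).card := by
    refine Finset.card_nbij' g g ?_ ?_ ?_ ?_
    · intro a ha
      rw [Finset.mem_coe, Finset.mem_filter] at ha ⊢
      have := hpar a ha.1
      exact ⟨(hg.1 a ha.1).1, by omega⟩
    · intro a ha
      rw [Finset.mem_coe, Finset.mem_filter] at ha ⊢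
      have := hpar a ha.1
      exact ⟨(hg.1 a ha.1).1, by omega⟩
    · intro a ha
      rw [Finset.mem_coe, Finset.mem_filter] at ha
      exact (hg.1 a ha.1).2.2
    · intro a ha
      rw [Finset.mem_coe, Finset.mem_filter] at ha
      exact (hg.1 a ha.1).2.2
  have h2 : (((Half m T).filter (fun a => a.2 % 2 = 0)).filter (fun a => ¬ a.1 = 0)).card =
      (((Half m T).filter (fun a => a.2 % 2 = 1)).filter (fun a => ¬ a.1 = 0)).card := by
    refine Finset.card_nbij' (fun a => (a.1, a.2 + 1)) (fun a => (a.1, a.2 - 1)) ?_ ?_ ?_ ?_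
    · intro a ha
      simp only [Finset.mem_coe, Finset.mem_filter, mem_Half, Reg] at ha ⊢
      refine ⟨⟨⟨⟨by omega, by omega⟩, fun h => absurd h ha.2⟩, by omega⟩, ha.2⟩
    · intro a ha
      simp only [Finset.mem_coe, Finset.mem_filter, mem_Half, Reg] at ha ⊢
      refine ⟨⟨⟨⟨by omega, by omega⟩, fun h => absurd h ha.2⟩, by omega⟩, ha.2⟩
    · intro a ha
      rfl
    · intro a ha
      simp only [Finset.mem_coe, Finset.mem_filter] at ha
      ext
      · rfl
      · show a.2 - 1 + 1 = a.2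
        omega
  have h3 : (((Half m T).filter (fun a => a.2 % 2 = 0)).filter (fun a => a.1 = 0)).card =
      ((range (2 * m)).filter (fun r => r % 2 = 0 ∧ r ∉ T)).card := by
    refine Finset.card_nbij' (fun a => a.2) (fun r => (0, r)) ?_ ?_ ?_ ?_
    · intro a ha
      simp only [Finset.mem_coe, Finset.mem_filter, mem_Half, Reg, Finset.mem_range] at ha ⊢
      obtain ⟨⟨⟨⟨c1, c2⟩, c3⟩, c4⟩, c5⟩ := ha
      refine ⟨by omega, c4, ?_⟩
      rcases c3 c5 with h | h
      · exact h.2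
      · omega
    · intro r hr
      simp only [Finset.mem_coe, Finset.mem_filter, mem_Half, Reg, Finset.mem_range] at hr ⊢
      exact ⟨⟨⟨⟨by omega, by omega⟩, fun _ => Or.inl hr.2⟩, hr.2.1⟩, trivial⟩
    · intro a ha
      simp only [Finset.mem_coe, Finset.mem_filter] at ha
      ext
      · exact ha.2.symm
      · rfl
    · intro r hr
      rfl
  have h4 : (((Half m T).filter (fun a => a.2 % 2 = 1)).filter (fun a => a.1 = 0)).card =
      (T.filter (fun r => ¬ r % 2 = 0)).card := by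
    refine Finset.card_nbij' (fun a => a.2) (fun r => (0, r)) ?_ ?_ ?_ ?_
    · intro a ha
      simp only [Finset.mem_coe, Finset.mem_filter, mem_Half, Reg, Finset.mem_range] at ha ⊢
      obtain ⟨⟨⟨⟨c1, c2⟩, c3⟩, c4⟩, c5⟩ := ha
      rcases c3 c5 with h | h
      · omega
      · exact ⟨h.2, by omega⟩
    · intro r hr
      simp only [Finset.mem_coe, Finset.mem_filter, mem_Half, Reg] at hr ⊢
      have := Finset.mem_range.mp (hT hr.1)
      exact ⟨⟨⟨⟨by omega, by omega⟩, fun _ => Or.inr ⟨by omega, hr.1⟩⟩, by omega⟩, trivial⟩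
    · intro a ha
      simp only [Finset.mem_coe, Finset.mem_filter] at ha
      ext
      · exact ha.2.symm
      · rfl
    · intro r hr
      rfl
  have h5 : ((range (2 * m)).filter (fun r => r % 2 = 0 ∧ r ∉ T)).card +
      (T.filter (fun r => r % 2 = 0)).card = m := by
    refine Eq.trans ?_ (even_card m)
    rw [← Finset.card_union_of_disjoint]
    · congr 1
      ext r
      simp only [Finset.mem_union, Finset.mem_filter, Finset.mem_range]
      constructor
      · rintro (h | h)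
        · exact ⟨h.1, h.2.1⟩
        · exact ⟨Finset.mem_range.mp (hT h.1), h.2⟩
      · intro h
        by_cases hr : r ∈ T
        · exact Or.inr ⟨hr, h.2⟩
        · exact Or.inl ⟨h.1, h.2, hr⟩
    · rw [Finset.disjoint_left]
      intro r h1 h2
      rw [Finset.mem_filter] at h1 h2
      exact h1.2.2 h2.1
  have f1 := Finset.card_filter_add_card_filter_not (s := (Half m T).filter (fun a => a.2 % 2 = 0))
    (fun a => a.1 = 0)
  have f2 := Finset.card_filter_add_card_filter_not (s := (Half m T).filter (fun a => a.2 % 2 = 1))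
    (fun a => a.1 = 0)
  have f3 := Finset.card_filter_add_card_filter_not (s := T) (fun r => r % 2 = 0)
  omega

theorem tau_sub (m : ℕ) (f : ℤ × ℤ → ℤ × ℤ) : tau m f ⊆ range (2 * m) := by
  intro r hr
  exact Finset.mem_range.mpr (mem_tau.mp hr).1

theorem tau_card {m : ℕ} {f : ℤ × ℤ → ℤ × ℤ} (hf : IsTiling m f) (hs : IsSym f) :
    (tau m f).card = m := by
  have h : f ∈ Sm m (tau m f) := ⟨hf, hs, rfl⟩
  rw [Sm_eq (tau_sub m f)] at h
  obtain ⟨g, hg, -⟩ := h
  exact card_T (tau_sub m f) hg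

/-! ### Pairs -/

/-- the pairs `{2 κ, 2 κ + 1}`, `κ ∈ K` -/
def Db {m : ℕ} (K : Finset (Fin m)) : Finset ℕ :=
  (K ×ˢ (univ : Finset (Fin 2))).image (fun p => 2 * (p.1 : ℕ) + p.2)

theorem mem_Db {m : ℕ} {K : Finset (Fin m)} {r : ℕ} : r ∈ Db K ↔ ∃ κ ∈ K, (κ : ℕ) = r / 2 := by
  unfold Db
  rw [Finset.mem_image]
  constructor
  · rintro ⟨⟨κ, e⟩, h, rfl⟩
    refine ⟨κ, (Finset.mem_product.mp h).1, ?_⟩
    show (κ : ℕ) = (2 * (κ : ℕ) + (e : ℕ)) / 2
    have := e.isLt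
    omega
  · rintro ⟨κ, h, hr⟩
    refine ⟨(κ, ⟨r % 2, Nat.mod_lt _ (by norm_num)⟩), Finset.mem_product.mpr ⟨h, Finset.mem_univ _⟩, ?_⟩
    show 2 * (κ : ℕ) + r % 2 = r
    omega

theorem card_Db {m : ℕ} (K : Finset (Fin m)) : (Db K).card = 2 * K.card := by
  unfold Db
  rw [Finset.card_image_of_injective, Finset.card_product]
  · simp [mul_comm]
  · rintro ⟨κ, e⟩ ⟨κ', e'⟩ h
    have h' : 2 * (κ : ℕ) + (e : ℕ) = 2 * (κ' : ℕ) + (e' : ℕ) := h
    have := e.isLt
    have := e'.isLt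
    have h1 : κ = κ' := Fin.ext (by omega)
    have h2 : e = e' := Fin.ext (by omega)
    rw [h1, h2]

/-- the set of rows used in the statement -/
def Tk {n m : ℕ} (k : Fin n ↪o Fin m) : Finset ℕ :=
  univ.image (fun p : Fin n × Fin 2 => 2 * ((k p.1 : Fin m) : ℕ) + p.2)

theorem mem_Tk {n m : ℕ} {k : Fin n ↪o Fin m} {r : ℕ} : r ∈ Tk k ↔ ∃ j, (k j : ℕ) = r / 2 := by
  unfold Tk
  rw [Finset.mem_image]
  constructor
  · rintro ⟨⟨j, e⟩, -, rfl⟩
    refine ⟨j, ?_⟩
    show (k j : ℕ) = (2 * (k j : ℕ) + (e : ℕ)) / 2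
    have := e.isLt
    omega
  · rintro ⟨j, hr⟩
    refine ⟨(j, ⟨r % 2, Nat.mod_lt _ (by norm_num)⟩), Finset.mem_univ _, ?_⟩
    show 2 * (k j : ℕ) + r % 2 = r
    omega

theorem Tk_sub {n m : ℕ} (k : Fin n ↪o Fin m) : Tk k ⊆ range (2 * m) := by
  intro r hr
  obtain ⟨j, hj⟩ := mem_Tk.mp hr
  have := (k j).isLt
  exact Finset.mem_range.mpr (by omega)

theorem oe_inj {n m : ℕ} {k k' : Fin n ↪o Fin m} (h : ∀ κ : Fin m, (∃ j, k j = κ) ↔ ∃ j, k' j = κ) :
    k = k' := by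
  have h1 : Set.range k = Set.range k' := by
    ext κ
    exact h κ
  have h2 := (StrictMono.range_inj k.strictMono k'.strictMono).mp h1
  exact DFunLike.coe_injective h2

theorem oe_exists {n m : ℕ} {K : Finset (Fin m)} (hK : K.card = n) :
    ∃ k : Fin n ↪o Fin m, ∀ κ, (∃ j, k j = κ) ↔ κ ∈ K := by
  refine ⟨K.orderEmbOfFin hK, fun κ => ?_⟩
  have := Finset.range_orderEmbOfFin K hK
  have h2 : κ ∈ Set.range (K.orderEmbOfFin hK) ↔ κ ∈ (K : Set (Fin m)) := by rw [this]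
  exact h2

/-! ### Disjoint unions -/

theorem sum_lemma (h : S_mc) {ι : Type} [DecidableEq ι] (I : Finset ι) (m : ℕ) (T : ι → Finset ℕ)
    (hT : ∀ i ∈ I, T i ⊆ range (2 * m)) (hinj : ∀ i ∈ I, ∀ j ∈ I, T i = T j → i = j) :
    (⋃ i ∈ I, Sm m (T i)).Finite ∧
      (⋃ i ∈ I, Sm m (T i)).ncard = ∑ i ∈ I, mc HAdj (Half m (T i)) := by
  induction I using Finset.induction_on with
  | empty => simp
  | insert a I' ha ih =>
    obtain ⟨ih1, ih2⟩ := ih (fun i hi => hT i (Finset.mem_insert_of_mem hi))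
      (fun i hi j hj => hinj i (Finset.mem_insert_of_mem hi) j (Finset.mem_insert_of_mem hj))
    obtain ⟨g1, g2⟩ := Sm_card h (hT a (Finset.mem_insert_self _ _))
    rw [Finset.set_biUnion_insert]
    have hd : Disjoint (Sm m (T a)) (⋃ i ∈ I', Sm m (T i)) := by
      rw [Set.disjoint_left]
      intro f hf hf'
      rw [Set.mem_iUnion₂] at hf'
      obtain ⟨i, hi, hfi⟩ := hf'
      have : a = i := hinj a (Finset.mem_insert_self _ _) i (Finset.mem_insert_of_mem hi)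
        (hf.2.2.symm.trans hfi.2.2)
      rw [this] at ha
      exact ha hi
    refine ⟨g1.union ih1, ?_⟩
    rw [Set.ncard_union_eq hd g1 ih1, Finset.sum_insert ha, g2, ih2]

theorem s_TO1 : S_mc → S_TO1 := by
  classical
  intro h n
  have hinj : ∀ k ∈ (univ : Finset (Fin n ↪o Fin (2 * n))), ∀ k' ∈ (univ : Finset (Fin n ↪o Fin (2 * n))),
      Tk k = Tk k' → k = k' := by
    intro k _ k' _ hkk
    apply oe_inj
    intro κ
    have h1 : 2 * (κ : ℕ) ∈ Tk k ↔ 2 * (κ : ℕ) ∈ Tk k' := by rw [hkk]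
    rw [mem_Tk, mem_Tk, Nat.mul_div_cancel_left _ (by norm_num)] at h1
    simpa only [Fin.ext_iff] using h1
  obtain ⟨s1, s2⟩ := sum_lemma h (univ : Finset (Fin n ↪o Fin (2 * n))) (2 * n) Tk
    (fun k _ => Tk_sub k) hinj
  have hset : TO n = ⋃ k ∈ (univ : Finset (Fin n ↪o Fin (2 * n))), Sm (2 * n) (Tk k) := by
    ext f
    rw [Set.mem_iUnion₂]
    constructor
    · rintro ⟨hf, hs, hz⟩
      have hc := tau_card hf hs
      have hz' : ∀ κ < 2 * n, (2 * κ ∈ tau (2 * n) f ↔ 2 * κ + 1 ∈ tau (2 * n) f) := fun κ hκ =>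
        (cellVal_zero hf hs hκ).mp (hz κ hκ)
      obtain ⟨K, hK⟩ : ∃ K : Finset (Fin (2 * n)), K = univ.filter (fun κ : Fin (2 * n) => 2 * (κ : ℕ) ∈ tau (2 * n) f) :=
        ⟨_, rfl⟩
      have hDb : Db K = tau (2 * n) f := by
        ext r
        rw [mem_Db]
        constructor
        · rintro ⟨κ, hκ, hr⟩
          rw [hK, Finset.mem_filter] at hκ
          rcases Nat.mod_two_eq_zero_or_one r with h0 | h0
          · rw [show r = 2 * (κ : ℕ) by omega]
            exact hκ.2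
          · rw [show r = 2 * (κ : ℕ) + 1 by omega]
            exact (hz' κ κ.isLt).mp hκ.2
        · intro hr
          have hlt := (mem_tau.mp hr).1
          refine ⟨⟨r / 2, by omega⟩, ?_, rfl⟩
          rw [hK, Finset.mem_filter]
          refine ⟨Finset.mem_univ _, ?_⟩
          show 2 * (r / 2) ∈ _
          rcases Nat.mod_two_eq_zero_or_one r with h0 | h0
          · rw [show 2 * (r / 2) = r by omega]
            exact hr
          · rw [hz' (r / 2) (by omega), show 2 * (r / 2) + 1 = r by omega]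
            exact hr
      have hKc : K.card = n := by
        have := card_Db K
        rw [hDb, hc] at this
        omega
      obtain ⟨k, hk⟩ := oe_exists hKc
      refine ⟨k, Finset.mem_univ _, hf, hs, ?_⟩
      rw [← hDb]
      ext r
      rw [mem_Db, mem_Tk]
      constructor
      · rintro ⟨κ, hκ, hr⟩
        obtain ⟨j, hj⟩ := (hk κ).mpr hκ
        exact ⟨j, by rw [hj, hr]⟩
      · rintro ⟨j, hj⟩
        exact ⟨k j, (hk _).mp ⟨j, rfl⟩, hj⟩
    · rintro ⟨k, -, hf, hs, ht⟩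
      refine ⟨hf, hs, fun κ hκ => ?_⟩
      rw [cellVal_zero hf hs hκ, ht, mem_Tk, mem_Tk, show (2 * κ + 1) / 2 = 2 * κ / 2 by omega]
  rw [hset]
  exact ⟨s1, s2⟩

theorem s_TD1 : S_mc → S_TD1 := by
  classical
  intro h n
  obtain ⟨m, hm⟩ : ∃ m, m = 2 * n + 1 := ⟨_, rfl⟩
  rw [← hm]
  obtain ⟨I, hI⟩ : ∃ I : Finset (Σ _ : Fin n ↪o Fin m, ℕ), I =
    (univ : Finset (Fin n ↪o Fin m)).sigma
      (fun k => (range (2 * m)).filter (fun t => ∀ j, (k j : ℕ) ≠ t / 2)) := ⟨_, rfl⟩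
  have hmemI : ∀ x, x ∈ I ↔ x.2 < 2 * m ∧ ∀ j, (x.1 j : ℕ) ≠ x.2 / 2 := by
    intro x
    rw [hI, Finset.mem_sigma, Finset.mem_filter, Finset.mem_range]
    simp
  -- membership of pairs
  have hin : ∀ (k : Fin n ↪o Fin m) (t r : ℕ), r ∈ insert t (Tk k) ↔ r = t ∨ ∃ j, (k j : ℕ) = r / 2 := by
    intro k t r
    rw [Finset.mem_insert, mem_Tk]
  have hodd : ∀ (k : Fin n ↪o Fin m) (t : ℕ), (∀ j, (k j : ℕ) ≠ t / 2) → ∀ κ : ℕ,
      ((2 * κ ∈ insert t (Tk k) ↔ 2 * κ + 1 ∈ insert t (Tk k)) ↔ κ ≠ t / 2) := by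
    intro k t hkt κ
    rw [hin, hin, show (2 * κ + 1) / 2 = κ by omega, show 2 * κ / 2 = κ by omega]
    by_cases hκ : κ = t / 2
    · have hno : ¬ ∃ j, (k j : ℕ) = κ := by
        rintro ⟨j, hj⟩
        exact hkt j (hj.trans hκ)
      refine ⟨fun hh => ?_, fun hh => absurd hκ hh⟩
      rcases Nat.mod_two_eq_zero_or_one t with h0 | h0
      · rcases hh.mp (Or.inl (by omega)) with h1 | h1
        · omega
        · exact absurd h1 hno
      · rcases hh.mpr (Or.inl (by omega)) with h1 | h1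
        · omega
        · exact absurd h1 hno
    · have a1 : ¬ 2 * κ = t := by omega
      have a2 : ¬ 2 * κ + 1 = t := by omega
      simp [a1, a2, hκ]
  have hinj : ∀ x ∈ I, ∀ y ∈ I, insert x.2 (Tk x.1) = insert y.2 (Tk y.1) → x = y := by
    rintro ⟨k, t⟩ hx ⟨k', t'⟩ hy hxy
    rw [hmemI] at hx hy
    obtain ⟨hx1, hx2⟩ := hx
    obtain ⟨hy1, hy2⟩ := hy
    simp only at hx1 hx2 hy1 hy2 hxy
    have htt : t / 2 = t' / 2 := by
      by_contra hne
      have c1 := (hodd k' t' hy2 (t / 2)).mpr hne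
      rw [← hxy] at c1
      exact (hodd k t hx2 (t / 2)).mp c1 rfl
    have ht : t = t' := by
      have : t ∈ insert t' (Tk k') := by
        rw [← hxy]
        exact Finset.mem_insert_self _ _
      rcases (hin k' t' t).mp this with h1 | ⟨j, hj⟩
      · exact h1
      · exact absurd (hj.trans htt) (hy2 j)
    subst ht
    have hkk : k = k' := by
      apply oe_inj
      intro κ
      have h1 : 2 * (κ : ℕ) ∈ insert t (Tk k) ↔ 2 * (κ : ℕ) ∈ insert t (Tk k') := by rw [hxy]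
      have h2 : 2 * (κ : ℕ) + 1 ∈ insert t (Tk k) ↔ 2 * (κ : ℕ) + 1 ∈ insert t (Tk k') := by rw [hxy]
      rw [hin, hin, show 2 * (κ : ℕ) / 2 = κ by omega] at h1
      rw [hin, hin, show (2 * (κ : ℕ) + 1) / 2 = κ by omega] at h2
      simp only [Fin.ext_iff]
      rcases Nat.mod_two_eq_zero_or_one t with h0 | h0
      · have a2 : ¬ 2 * (κ : ℕ) + 1 = t := by omega
        simpa [a2] using h2
      · have a1 : ¬ 2 * (κ : ℕ) = t := by omega
        simpa [a1] using h1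
    rw [hkk]
  obtain ⟨s1, s2⟩ := sum_lemma h I m (fun x => insert x.2 (Tk x.1)) (by
    intro x hx
    rw [hmemI] at hx
    intro r hr
    rcases Finset.mem_insert.mp hr with rfl | hr
    · exact Finset.mem_range.mpr hx.1
    · exact Tk_sub _ hr) hinj
  have hset : TD n = ⋃ x ∈ I, Sm m (insert x.2 (Tk x.1)) := by
    ext f
    rw [Set.mem_iUnion₂]
    constructor
    · rintro ⟨hf, hs, κ0, ⟨hκ0, hne⟩, huniq⟩
      rw [← hm] at hf hκ0 hne huniq
      have hc := tau_card hf hs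
      have hz' : ∀ κ < m, κ ≠ κ0 → (2 * κ ∈ tau m f ↔ 2 * κ + 1 ∈ tau m f) := by
        intro κ hκ hκne
        rw [← cellVal_zero hf hs hκ]
        by_contra hc0
        exact hκne (huniq κ ⟨hκ, hc0⟩)
      have hne' : ¬ (2 * κ0 ∈ tau m f ↔ 2 * κ0 + 1 ∈ tau m f) := by
        rw [← cellVal_zero hf hs hκ0]
        exact hne
      obtain ⟨t, ht1, ht2, ht3⟩ : ∃ t, t / 2 = κ0 ∧ t ∈ tau m f ∧ ∀ r ∈ tau m f, r / 2 = κ0 → r = t := by
        by_cases h0 : 2 * κ0 ∈ tau m f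
        · have h1 : 2 * κ0 + 1 ∉ tau m f := fun h1 => hne' ⟨fun _ => h1, fun _ => h0⟩
          refine ⟨2 * κ0, by omega, h0, fun r hr hr2 => ?_⟩
          by_contra hrt
          apply h1
          rw [show 2 * κ0 + 1 = r by omega]
          exact hr
        · have h1 : 2 * κ0 + 1 ∈ tau m f := by
            by_contra h1
            exact hne' ⟨fun h2 => absurd h2 h0, fun h2 => absurd h2 h1⟩
          refine ⟨2 * κ0 + 1, by omega, h1, fun r hr hr2 => ?_⟩
          by_contra hrt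
          apply h0
          rw [show 2 * κ0 = r by omega]
          exact hr
      obtain ⟨K, hK⟩ : ∃ K : Finset (Fin m), K =
          univ.filter (fun κ : Fin m => (κ : ℕ) ≠ κ0 ∧ 2 * (κ : ℕ) ∈ tau m f) := ⟨_, rfl⟩
      have hDb : insert t (Db K) = tau m f := by
        ext r
        rw [Finset.mem_insert, mem_Db]
        constructor
        · rintro (rfl | ⟨κ, hκ, hr⟩)
          · exact ht2
          · rw [hK, Finset.mem_filter] at hκ
            rcases Nat.mod_two_eq_zero_or_one r with h0 | h0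
            · rw [show r = 2 * (κ : ℕ) by omega]
              exact hκ.2.2
            · rw [show r = 2 * (κ : ℕ) + 1 by omega]
              exact (hz' κ κ.isLt hκ.2.1).mp hκ.2.2
        · intro hr
          have hlt := (mem_tau.mp hr).1
          by_cases hr0 : r / 2 = κ0
          · exact Or.inl (ht3 r hr hr0)
          · right
            refine ⟨⟨r / 2, by omega⟩, ?_, rfl⟩
            rw [hK, Finset.mem_filter]
            refine ⟨Finset.mem_univ _, hr0, ?_⟩
            show 2 * (r / 2) ∈ _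
            rcases Nat.mod_two_eq_zero_or_one r with h0 | h0
            · rw [show 2 * (r / 2) = r by omega]
              exact hr
            · rw [hz' (r / 2) (by omega) hr0, show 2 * (r / 2) + 1 = r by omega]
              exact hr
      have htK : t ∉ Db K := by
        rw [mem_Db]
        rintro ⟨κ, hκ, hr⟩
        rw [hK, Finset.mem_filter] at hκ
        exact hκ.2.1 (hr.trans ht1)
      have hKc : K.card = n := by
        have h1 := card_Db K
        have h2 := Finset.card_insert_of_notMem htK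
        rw [hDb, hc] at h2
        omega
      obtain ⟨k, hk⟩ := oe_exists hKc
      have hTk : Tk k = Db K := by
        ext r
        rw [mem_Db, mem_Tk]
        constructor
        · rintro ⟨j, hj⟩
          exact ⟨k j, (hk _).mp ⟨j, rfl⟩, hj⟩
        · rintro ⟨κ, hκ, hr⟩
          obtain ⟨j, hj⟩ := (hk κ).mpr hκ
          exact ⟨j, by rw [hj, hr]⟩
      refine ⟨⟨k, t⟩, ?_, hf, hs, ?_⟩
      · rw [hmemI]
        refine ⟨(mem_tau.mp ht2).1, fun j hj => ?_⟩
        have := (hk (k j)).mp ⟨j, rfl⟩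
        rw [hK, Finset.mem_filter] at this
        exact this.2.1 (hj.trans ht1)
      · show tau m f = insert t (Tk k)
        rw [hTk, hDb]
    · rintro ⟨⟨k, t⟩, hx, hf, hs, ht⟩
      rw [hmemI] at hx
      obtain ⟨hx1, hx2⟩ := hx
      simp only at hx1 hx2 ht
      have key : ∀ κ < m, (cellVal m f κ ≠ 0 ↔ κ = t / 2) := by
        intro κ hκ
        rw [ne_eq, cellVal_zero hf hs hκ, ht, hodd k t hx2]
        exact not_not
      refine ⟨by rw [← hm]; exact hf, hs, t / 2, ?_, ?_⟩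
      · simp only
        rw [← hm]
        exact ⟨by omega, (key _ (by omega)).mpr rfl⟩
      · rintro κ ⟨h1, h2⟩
        rw [← hm] at h1 h2
        exact (key κ h1).mp h2
  rw [hset]
  refine ⟨s1, s2.trans ?_⟩
  rw [hI, Finset.sum_sigma]
  rfl

end Pool.Agent.R372.Az
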