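import Mathlib
import Pool.Agent.R161.Az.Defs
import Pool.Agent.R161.Az.Tend

set_option autoImplicit false

namespace Pool.Agent.R161.AzB

open Pool.Agent.R161.Az

open Finset Matrix Filter Topology

/-- standard enumeration -/
def eN (n : ℕ) : Fin (2 * n) ≃ Fin n × Fin 2 :=
  (finCongr (Nat.mul_comm 2 n)).trans finProdFinEquiv.symm

lemma eN_ix (n : ℕ) (i : Fin (2 * n)) : ix (eN n i) = i := by
  have h : finProdFinEquiv (eN n i) = finCongr (Nat.mul_comm 2 n) i := by
    show finProdFinEquiv (finProdFinEquiv.symm (finCongr (Nat.mul_comm 2 n) i)) = _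
    exact Equiv.apply_symm_apply _ _
  have h2 := congrArg Fin.val h
  simp only [finProdFinEquiv_apply_val, finCongr_apply, Fin.val_cast] at h2
  unfold ix
  omega

lemma eN_fst (n : ℕ) (i : Fin (2 * n)) : ((eN n i).1 : ℕ) = i / 2 := by
  have h := eN_ix n i
  have h2 := (eN n i).2.isLt
  unfold ix at h
  omega

lemma eN_snd (n : ℕ) (i : Fin (2 * n)) : ((eN n i).2 : ℕ) = i % 2 := by
  have h := eN_ix n i
  have h2 := (eN n i).2.isLt
  unfold ix at h
  omega

/-- extension of `k` to the naturals -/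
def kext {n : ℕ} (k : Fin n → ℕ) (x : ℕ) : ℕ := if h : x < n then k ⟨x, h⟩ else 0

lemma kext_val {n : ℕ} (k : Fin n → ℕ) (j : Fin n) : kext k j = k j := by
  simp [kext]

/-- the sequence of pairs -/
def Pq {n : ℕ} (k : Fin n → ℕ) (x : ℕ) : ℕ := 2 * kext k (x / 2) + x % 2

lemma Pq_eN {n : ℕ} (k : Fin n → ℕ) (i : Fin (2 * n)) :
    2 * k (eN n i).1 + ((eN n i).2 : ℕ) = Pq k i := by
  unfold Pq
  rw [← eN_fst, ← eN_snd, kext_val]

lemma det_PM {R : Type*} [CommRing R] (n : ℕ) (u : ℕ → ℕ → R) (k : Fin n → ℕ) :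
    (PM n u k).det = (Matrix.of fun i j : Fin (2 * n) => u i (Pq k j)).det := by
  rw [← Matrix.det_submatrix_equiv_self (eN n) (PM n u k)]
  congr 1
  ext i j
  simp only [Matrix.submatrix_apply, PM, Matrix.of_apply]
  rw [eN_ix, Pq_eN]

/-- standard enumeration with the extra element -/
def eD (n : ℕ) : Fin (2 * n + 1) ≃ (Fin n × Fin 2) ⊕ Unit :=
  ((finSumFinEquiv (m := 2 * n) (n := 1)).symm).trans
    (Equiv.sumCongr (eN n) (Equiv.equivPUnit (Fin 1)))

lemma eD_lt (n : ℕ) (i : Fin (2 * n + 1)) (h : (i : ℕ) < 2 * n) :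
    eD n i = Sum.inl (eN n ⟨i, h⟩) := by
  have : finSumFinEquiv.symm i = (Sum.inl ⟨i, h⟩ : Fin (2 * n) ⊕ Fin 1) := by
    rw [Equiv.symm_apply_eq]
    ext; simp
  simp [eD, this]

lemma eD_last (n : ℕ) (i : Fin (2 * n + 1)) (h : (i : ℕ) = 2 * n) :
    eD n i = Sum.inr () := by
  have : finSumFinEquiv.symm i = (Sum.inr 0 : Fin (2 * n) ⊕ Fin 1) := by
    rw [Equiv.symm_apply_eq]
    ext; simp [h]
  simp [eD, this]

lemma eD_ix (n : ℕ) (i : Fin (2 * n + 1)) : ix' (eD n i) = i := by
  by_cases h : (i : ℕ) < 2 * n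
  · rw [eD_lt n i h]
    simp only [ix']
    rw [eN_ix]
  · have h' : (i : ℕ) = 2 * n := by omega
    rw [eD_last n i h']
    simp only [ix']
    omega

/-- insert `t` at position `a` -/
def ins (P : ℕ → ℕ) (t a x : ℕ) : ℕ := if x < a then P x else if x = a then t else P (x - 1)

lemma det_PMD {R : Type*} [CommRing R] (n : ℕ) (u : ℕ → ℕ → R) (k : Fin n → ℕ) (t : ℕ) :
    (PMD n u k t).det =
      (Matrix.of fun i j : Fin (2 * n + 1) => u i (ins (Pq k) t (2 * n) j)).det := by
  rw [← Matrix.det_submatrix_equiv_self (eD n) (PMD n u k t)]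
  congr 1
  ext i j
  simp only [Matrix.submatrix_apply, PMD, Matrix.of_apply]
  rw [eD_ix]
  congr 1
  by_cases h : (j : ℕ) < 2 * n
  · rw [eD_lt n j h]
    simp only [ins]
    rw [if_pos h, Pq_eN]
  · have h' : (j : ℕ) = 2 * n := by omega
    rw [eD_last n j h']
    simp only [ins]
    rw [if_neg h, if_pos h']

lemma det_ins {R : Type*} [CommRing R] (N : ℕ) (A : ℕ → ℕ → R) (P : ℕ → ℕ) (t a : ℕ)
    (ha : a < N + 1) :
    (Matrix.of fun i j : Fin (N + 1) => A i (ins P t a j)).det =
      ∑ i : Fin (N + 1), (-1) ^ ((i : ℕ) + a) * A i t *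
        (Matrix.of fun i' j' : Fin N => A (i.succAbove i') (P j')).det := by
  rw [Matrix.det_succ_column _ (⟨a, ha⟩ : Fin (N + 1))]
  refine Finset.sum_congr rfl fun i _ => ?_
  have e1 : (Matrix.of fun i j : Fin (N + 1) => A i (ins P t a j)) i ⟨a, ha⟩ = A i t := by
    simp [ins]
  rw [e1]
  have e2 : (Matrix.of fun i j : Fin (N + 1) => A i (ins P t a j)).submatrix i.succAbove
      (Fin.succAbove ⟨a, ha⟩) = (Matrix.of fun i' j' : Fin N => A (i.succAbove i') (P j')) := by
    ext i' j'
    simp only [Matrix.submatrix_apply, Matrix.of_apply]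
    congr 1
    unfold ins
    by_cases h : (j' : ℕ) < a
    · have h1 : (Fin.succAbove (⟨a, ha⟩ : Fin (N + 1)) j' : ℕ) = j' := by
        rw [Fin.succAbove_of_castSucc_lt]
        · simp
        · rw [Fin.lt_def]; simpa using h
      rw [h1, if_pos h]
    · have h1 : (Fin.succAbove (⟨a, ha⟩ : Fin (N + 1)) j' : ℕ) = j' + 1 := by
        rw [Fin.succAbove_of_le_castSucc]
        · simp
        · rw [Fin.le_def]; simp; omega
      rw [h1, if_neg (by omega), if_neg (by omega)]
      simp
  rw [e2]

lemma det_ins_eq {R : Type*} [CommRing R] (N : ℕ) (A : ℕ → ℕ → R) (P : ℕ → ℕ) (t a b : ℕ)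
    (ha : 2 * a < N + 1) (hb : 2 * b < N + 1) :
    (Matrix.of fun i j : Fin (N + 1) => A i (ins P t (2 * a) j)).det =
    (Matrix.of fun i j : Fin (N + 1) => A i (ins P t (2 * b) j)).det := by
  rw [det_ins N A P t _ ha, det_ins N A P t _ hb]
  refine Finset.sum_congr rfl fun i _ => ?_
  rw [pow_add, pow_add, pow_mul, pow_mul]
  norm_num

lemma kext_lt {n : ℕ} {k : Fin n → ℕ} (hk : StrictMono k) {x y : ℕ} (hxy : x < y) (hy : y < n) :
    kext k x < kext k y := by
  unfold kext
  rw [dif_pos hy, dif_pos (by omega : x < n)]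
  exact hk (by rw [Fin.lt_def]; exact hxy)

lemma Pq_lt {n : ℕ} {k : Fin n → ℕ} (hk : StrictMono k) {x y : ℕ} (hxy : x < y) (hy : y < 2 * n) :
    Pq k x < Pq k y := by
  unfold Pq
  rcases Nat.lt_or_ge (x / 2) (y / 2) with h | h
  · have := kext_lt hk h (by omega)
    omega
  · have h' : x / 2 = y / 2 := by omega
    rw [h']
    omega

theorem s_TO (h1 : S_TO1) (h2 : S_half) : S_TO := by
  intro n
  rw [(h1 n).2]
  push_cast
  refine Finset.sum_congr rfl fun k _ => ?_
  have hk : StrictMono (fun j => ((k j : Fin (2 * n)) : ℕ)) := fun a b hab => k.strictMono hab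
  have h3 := h2 (2 * n) (fun i => Pq (fun j => ((k j : Fin (2 * n)) : ℕ)) i)
    (fun a b hab => Pq_lt hk hab b.isLt) (by
      intro j
      have h4 : kext (fun j => ((k j : Fin (2 * n)) : ℕ)) ((j : ℕ) / 2) < 2 * n := by
        unfold kext
        rw [dif_pos (by omega)]
        exact (k _).isLt
      simp only [Pq]
      omega)
  rw [det_PM, ← h3]
  congr 3
  ext x
  simp only [mem_image, mem_univ, true_and]
  constructor
  · rintro ⟨p, rfl⟩
    refine ⟨(eN n).symm p, ?_⟩
    rw [← Pq_eN]
    simp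
  · rintro ⟨i, rfl⟩
    refine ⟨eN n i, ?_⟩
    exact Pq_eN (fun j => ((k j : Fin (2 * n)) : ℕ)) i

theorem s_TD (h1 : S_TD1) (h2 : S_half) : S_TD := by
  intro n
  rw [(h1 n).2]
  push_cast
  refine Finset.sum_congr rfl fun k _ => ?_
  have hk : StrictMono (fun j => ((k j : Fin (2 * n + 1)) : ℕ)) := fun a b hab => k.strictMono hab
  rw [Finset.sum_filter]
  refine Finset.sum_congr rfl fun t ht => ?_
  rw [mem_range] at ht
  set kk : Fin n → ℕ := fun j => ((k j : Fin (2 * n + 1)) : ℕ) with hkk
  have hkl : ∀ x, kext kk x < 2 * n + 1 := by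
    intro x
    unfold kext
    split_ifs with h
    · exact (k _).isLt
    · omega
  split_ifs with hcond
  · -- the number of pairs below `t`
    obtain ⟨a, ha, ha1, ha2⟩ : ∃ a ≤ n, (∀ x < a, kext kk x < t / 2) ∧
        (∀ x, a ≤ x → x < n → t / 2 < kext kk x) := by
      have hne : ∀ x < n, kext kk x ≠ t / 2 := by
        intro x hx
        unfold kext
        rw [dif_pos hx]
        exact hcond ⟨x, hx⟩
      by_cases hex : ∃ x < n, t / 2 < kext kk x
      · classical
        refine ⟨Nat.find hex, (Nat.find_spec hex).1.le, ?_, ?_⟩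
        · intro x hx
          have := Nat.find_min hex hx
          have hx' : x < n := lt_trans hx (Nat.find_spec hex).1
          have h5 := hne x hx'
          by_contra h6
          exact this ⟨hx', by omega⟩
        · intro x hx hxn
          rcases Nat.eq_or_lt_of_le hx with h | h
          · rw [← h]; exact (Nat.find_spec hex).2
          · exact lt_trans (Nat.find_spec hex).2 (kext_lt hk h hxn)
      · refine ⟨n, le_refl _, ?_, fun x h1 h2 => absurd h2 (by omega)⟩
        intro x hx
        have h5 := hne x hx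
        by_contra h6
        exact hex ⟨x, hx, by omega⟩
    have h3 := h2 (2 * n + 1) (fun i => ins (Pq kk) t (2 * a) i) (by
      intro x y hxy
      rw [Fin.lt_def] at hxy
      have hy := y.isLt
      simp only [ins]
      split_ifs with c1 c2 c3 c4 c5 c6 c7 c8
      · exact Pq_lt hk hxy (by omega)
      · have := ha1 ((x : ℕ) / 2) (by omega)
        simp only [Pq]
        omega
      · exact Pq_lt hk (by omega) (by omega)
      · omega
      · omega
      · have := ha2 (((y : ℕ) - 1) / 2) (by omega) (by omega)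
        simp only [Pq]
        omega
      · omega
      · omega
      · exact Pq_lt hk (by omega) (by omega)) (by
      intro j
      simp only [ins]
      split_ifs
      · have := hkl ((j : ℕ) / 2)
        simp only [Pq]
        omega
      · exact ht
      · have := hkl (((j : ℕ) - 1) / 2)
        simp only [Pq]
        omega)
    rw [det_PMD, ← det_ins_eq (2 * n) rr (Pq kk) t a n (by omega) (by omega), ← h3]
    congr 3
    ext x
    simp only [mem_insert, mem_image, mem_univ, true_and]
    constructor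
    · rintro (rfl | ⟨p, rfl⟩)
      · refine ⟨⟨2 * a, by omega⟩, ?_⟩
        simp [ins]
      · have e1 : 2 * kk p.1 + (p.2 : ℕ) = Pq kk ((eN n).symm p) := by
          rw [← Pq_eN]
          simp
        have hlt := ((eN n).symm p).isLt
        by_cases h : (((eN n).symm p : Fin (2 * n)) : ℕ) < 2 * a
        · refine ⟨⟨(eN n).symm p, by omega⟩, ?_⟩
          simp only [ins]
          rw [if_pos h, ← e1]
        · refine ⟨⟨((eN n).symm p : ℕ) + 1, by omega⟩, ?_⟩
          simp only [ins]
          rw [if_neg (by omega), if_neg (by omega), Nat.add_sub_cancel, ← e1]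
    · rintro ⟨i, rfl⟩
      have hi := i.isLt
      simp only [ins]
      split_ifs with c1 c2
      · right
        refine ⟨eN n ⟨i, by omega⟩, ?_⟩
        exact Pq_eN kk ⟨i, by omega⟩
      · left; rfl
      · right
        refine ⟨eN n ⟨(i : ℕ) - 1, by omega⟩, ?_⟩
        exact Pq_eN kk ⟨(i : ℕ) - 1, by omega⟩
  · -- repeated column
    push Not at hcond
    obtain ⟨j, hj⟩ := hcond
    symm
    have hne : (Sum.inl (j, (⟨t % 2, Nat.mod_lt _ (by norm_num)⟩ : Fin 2)) :
        (Fin n × Fin 2) ⊕ Unit) ≠ Sum.inr () := by simp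
    refine Matrix.det_zero_of_column_eq hne ?_
    intro p
    simp only [PMD, Matrix.of_apply]
    congr 1
    have : kk j = t / 2 := hj
    rw [this]
    omega

end Pool.Agent.R161.AzB
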